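import Pool.Agent.NH49.LR.Stm
import Pool.Agent.R773.HN.Grp
import Pool.Agent.R773.HN.Fin
import Pool.Agent.Y419.HB.Dil

/-!
# Project LR: a copy of a Hamiltonian homeomorphism in a ball
-/

set_option autoImplicit false

open Set Filter Topology Function

namespace Pool.Agent.NH49.LR

open Pool.Agent.Y453.HB
open Pool.Agent.R773.HN

namespace AP

theorem nm_of_Q {n : ℕ} {x : E n} (h : Q x < 1) : nm x < 1 := nm_lt_one h

/-- the support of a copy at the origin -/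
theorem supp0 {n : ℕ} {t : ℝ} (ht : 0 < t) {K : Set (E n)} (hK1 : K ⊆ {p : E n | Q p < 1})
    {w : E n ≃ₜ E n} (hw : ∀ x, x ∉ K → w x = x) :
    Supp (D (0 : E n) t) (dil t ht * w * (dil t ht)⁻¹) := by
  intro x hx
  rw [mul_apply, mul_apply, dil_inv_apply, dil_apply, hw, smul_smul, mul_inv_cancel₀ ht.ne',
    one_smul]
  intro hc
  apply hx
  have h1 : nm (t⁻¹ • x) < 1 := nm_lt_one (hK1 hc)
  rw [nm_smul, abs_of_pos (inv_pos.2 ht), inv_mul_lt_iff₀ ht, mul_one] at h1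
  show nm (x - 0) ≤ t
  rw [sub_zero]
  exact h1.le

end AP

theorem t_AP : S_AP := by
  intro n z t ht hzt b hb
  have hM := Pool.Agent.Y907.HB.mul
  have hI := Pool.Agent.Y510.HB.inv
  have hU := Pool.Agent.Y309.HB.uc
  have hD := Pool.Agent.Y419.HB.dil_ham
  obtain ⟨K, hK, hK1, hK2, u, hu1, hu2, hu3⟩ := (mem_iff hM hI hU).1 hb
  have hz0 := nm_nonneg z
  have ht1 : t ≤ 1 := by linarith
  obtain ⟨R, hR1, hR2⟩ := exists_between hzt
  obtain ⟨κ, hκ, hκs, hκx⟩ := hT n 0 0 z t R ht (by rw [nm_zero]; linarith)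
    (by rw [sub_zero, nm_zero]; linarith) (by rw [sub_zero, zero_add]; exact hR1)
  have hκm := ham_mem hκ
  have him : κ '' D 0 t ⊆ D z t := by
    have := image_D hκx
    rwa [zero_add] at this
  have hsupp : ∀ w : E n ≃ₜ E n, (∀ x, x ∉ K → w x = x) →
      Supp (D z t) (κ * (dil t ht * w * (dil t ht)⁻¹) * κ⁻¹) := fun w hw =>
    ((AP.supp0 ht hK1 hw).conj κ).mono him
  have hvu : UConv (fun k => κ * (dil t ht * u k * (dil t ht)⁻¹) * κ⁻¹)
      (κ * (dil t ht * b * (dil t ht)⁻¹) * κ⁻¹) := by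
    obtain ⟨L, hL, hL1, hL2, -⟩ := hκm
    have h1 := (hU n).2.2.2.1 t ht
    have h2 : UConv (fun _ : ℕ => κ) κ := by
      refine uconv_of hU hL hL2 ?_
      rw [Metric.tendstoUniformly_iff]
      intro ε hε
      exact Eventually.of_forall fun _ x => by rw [dist_self]; exact hε
    have h3 := (hU n).1 _ _ _ _ ((hU n).1 _ _ _ _ h1 (uconv_of hU hK hK2 hu3))
      ((hU n).2.1 _ _ h1)
    exact (hU n).1 _ _ _ _ ((hU n).1 _ _ _ _ h2 h3) ((hU n).2.1 _ _ h2)
  have hκt : ∀ x : E n, nm x ≤ 1 → κ (t • x) = z + t • x := by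
    intro x hx
    rw [hκx, add_comm]
    show nm (t • x - 0) ≤ t
    rw [sub_zero, nm_smul, abs_of_pos ht]
    exact mul_le_of_le_one_right ht.le hx
  have hbm : ∀ x : E n, nm x ≤ 1 → nm (b x) ≤ 1 := by
    intro x hx
    have h1 : Supp {x : E n | nm x ≤ 1} b := by
      intro y hy
      refine hK2 y fun hc => hy ?_
      exact (nm_lt_one (hK1 hc)).le
    exact h1.maps hx
  refine ⟨κ * (dil t ht * b * (dil t ht)⁻¹) * κ⁻¹, ⟨hsupp b hK2, _, fun j => ⟨?_, ?_⟩, hvu.1⟩, κ,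
    Subgroup.subset_closure hκm, ht, rfl, ?_, ?_⟩
  · exact hM n _ _ (hM n _ _ hκ (hD n t ht ht1 _ (hu2 j))) ((hI n).2 _ hκ)
  · exact hsupp _ (hu1 j)
  · intro x hx
    rw [mul_apply, mul_apply, mul_apply, mul_apply, ← hκt x hx, inv_apply_self, dil_inv_apply,
      dil_apply, smul_smul, inv_mul_cancel₀ ht.ne', one_smul, hκt _ (hbm x hx)]
  · intro y hy
    have h1 : t⁻¹ • (κ⁻¹ y) ∉ K := by
      intro hc
      have h2 : nm (t⁻¹ • (κ⁻¹ y)) < 1 := nm_lt_one (hK1 hc)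
      refine hy _ h2 ?_
      rw [← hκt _ h2.le, smul_smul, mul_inv_cancel₀ ht.ne', one_smul, apply_inv_self]
    rw [mul_apply, mul_apply, mul_apply, mul_apply, dil_inv_apply, dil_apply, hK2 _ h1, smul_smul,
      mul_inv_cancel₀ ht.ne', one_smul, apply_inv_self]

end Pool.Agent.NH49.LR
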