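import Pool.Agent.NH49.LR.Stm
import Pool.Agent.R773.HN.Asm2
import Pool.Agent.R773.HN.Fin3

/-!
# Project LR: assembly
-/

set_option autoImplicit false

open Set Filter Topology Function
open scoped commutatorElement

namespace Pool.Agent.NH49.LR

open Pool.Agent.Y453.HB
open Pool.Agent.R773.HN

variable {n : ℕ}

/-! ### subgroups of the group of homeomorphisms -/

theorem exists_ne (hn : 0 < n) : ∃ h ∈ Mono (HamBar n), h ≠ 1 := by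
  obtain ⟨⟨m, hm⟩, hm'⟩ := (Subgroup.ne_bot_iff_exists_ne_one).1 (Mono_ne hT hR hn mid_HamBar)
  exact ⟨m, hm, fun h => hm' (Subtype.ext h)⟩

theorem Mono_sub : (Mono (HamBar n) : Set (E n ≃ₜ E n)) ⊆ HamBar n := fun _ h => (Mono_norm _).1 h

/-- the elements which can be fragmented into pieces of radius `r` -/
def Wg (hW : S_WC) (n : ℕ) (r : ℝ) (hr : 0 < r) : Subgroup (E n ≃ₜ E n) where
  carrier := {g | ∃ m, g ∈ Wc n 1 r m}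
  one_mem' := ⟨0, (hW n 1 r one_pos hr).1 0⟩
  mul_mem' := by
    rintro a b ⟨m, ha⟩ ⟨k, hb⟩
    exact ⟨m + k, (hW n 1 r one_pos hr).2.2.1 m k a ha b hb⟩
  inv_mem' := by
    rintro a ⟨m, ha⟩
    exact ⟨m, (hW n 1 r one_pos hr).2.2.2.1 m a ha⟩

theorem Bl_sub (hB : S_BL) {s : ℝ} (hs : s ≤ 1) {g : E n ≃ₜ E n} (hg : g ∈ Bl n s) : g ∈ HamBar n := by
  have h1 := (hB n).2.2.2.2.1 s 1 hs hg
  rw [(hB n).1] at h1
  exact h1

theorem Bl_one (hB : S_BL) {g : E n ≃ₜ E n} : g ∈ Bl n 1 ↔ g ∈ HamBar n := by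
  rw [(hB n).1]; rfl

theorem Wc_sub (hB : S_BL) {r : ℝ} (hr1 : r ≤ 1) (m : ℕ) {g : E n ≃ₜ E n} (hg : g ∈ Wc n 1 r m) :
    g ∈ HamBar n := by
  induction m generalizing g with
  | zero => rw [show g = 1 from hg]; exact (HamBar n).one_mem
  | succ m ih =>
    obtain ⟨h, hh, b, hb, w, hw, rfl⟩ := hg
    exact (HamBar n).mul_mem ((HamBar n).mul_mem ((HamBar n).mul_mem ((Bl_one hB).1 hh) (Bl_sub hB hr1 hb))
      ((HamBar n).inv_mem ((Bl_one hB).1 hh))) (ih hw)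

theorem Wg_norm (hB : S_BL) (hW : S_WC) {r : ℝ} (hr : 0 < r) (hr1 : r ≤ 1) :
    NormIn (HamBar n) (Wg hW n r hr) := by
  refine ⟨?_, ?_⟩
  · rintro g ⟨m, hm⟩
    exact Wc_sub hB hr1 m hm
  · rintro h hh g ⟨m, hm⟩
    exact ⟨m, (hW n 1 r one_pos hr).2.2.2.2.1 m g hm h ((Bl_one hB).2 hh)⟩

theorem Wg_ne (hW : S_WC) (hn : 0 < n) {r : ℝ} (hr : 0 < r) : Wg hW n r hr ≠ ⊥ := by
  obtain ⟨h, hh, hne⟩ := exists_ne hn
  intro hb
  have h1 : dil r hr * h * (dil r hr)⁻¹ ∈ Wg hW n r hr :=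
    ⟨1, (hW n 1 r one_pos hr).2.2.2.2.2.1 _ ⟨hr, h, Mono_sub hh, rfl⟩⟩
  rw [hb, Subgroup.mem_bot] at h1
  apply hne
  have h2 : h = (dil r hr)⁻¹ * (dil r hr * h * (dil r hr)⁻¹) * dil r hr := by group
  rw [h2, h1]
  group

theorem Mono_le_Wg (hB : S_BL) (hW : S_WC) (hn : 0 < n) {r : ℝ} (hr : 0 < r) {g : E n ≃ₜ E n}
    (hg : g ∈ Mono (HamBar n)) : ∃ m, g ∈ Wc n 1 r m := by
  rcases le_or_gt r 1 with h1 | h1
  · exact Mono_le (Wg_norm hB hW hr h1) (Wg_ne hW hn hr) hg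
  · refine ⟨1, (hW n 1 r one_pos hr).2.2.2.2.2.1 _ ?_⟩
    exact (hB n).2.2.2.2.1 1 r h1.le ((Bl_one hB).2 (Mono_sub hg))

theorem ncl_conj (Z : ℕ → (E n ≃ₜ E n)) {g : E n ≃ₜ E n} (hg : g ∈ HamBar n) {x : E n ≃ₜ E n}
    (hx : x ∈ ncl Z) : g * x * g⁻¹ ∈ ncl Z := by
  induction hx using Subgroup.closure_induction with
  | mem x hx =>
    obtain ⟨h, hh, j, rfl⟩ := hx
    refine Subgroup.subset_closure ⟨g * h, (HamBar n).mul_mem hg hh, j, ?_⟩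
    group
  | one => rw [mul_one, mul_inv_cancel]; exact Subgroup.one_mem _
  | mul x y _ _ hx hy =>
    have e : g * (x * y) * g⁻¹ = (g * x * g⁻¹) * (g * y * g⁻¹) := by group
    rw [e]
    exact Subgroup.mul_mem _ hx hy
  | inv x _ hx =>
    have e : g * x⁻¹ * g⁻¹ = (g * x * g⁻¹)⁻¹ := by group
    rw [e]
    exact Subgroup.inv_mem _ hx

theorem ncl_norm (Z : ℕ → (E n ≃ₜ E n)) (hZ : ∀ j, Z j ∈ HamBar n) : NormIn (HamBar n) (ncl Z) := by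
  refine ⟨?_, fun g hg x hx => ncl_conj Z hg hx⟩
  unfold ncl
  rw [Subgroup.closure_le]
  rintro _ ⟨h, hh, j, rfl⟩
  exact (HamBar n).mul_mem ((HamBar n).mul_mem hh (hZ j)) ((HamBar n).inv_mem hh)

/-- (A) -/
theorem part_A (hB : S_BL) (hW : S_WC) (hH : S_HUMP) (hn : 0 < n) {ρ : ℝ} (hρ : 0 < ρ) (hρ1 : ρ ≤ 1)
    (h : ∀ g ∈ Bl n ρ, g ∈ Mono (HamBar n)) : ∃ ρ' : ℝ, 0 < ρ' ∧ ρ' < 1 ∧ Frg n ρ' := by
  obtain ⟨z, hz, hne⟩ := exists_ne hn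
  refine hH n hn ρ hρ hρ1 (fun _ => z) (fun _ r hr => Mono_le_Wg hB hW hn hr hz) ?_
  intro g hg
  refine Mono_le (ncl_norm _ fun _ => Mono_sub hz) ?_ (h g hg)
  intro hb
  have h1 : z ∈ ncl (fun _ : ℕ => z) :=
    Subgroup.subset_closure ⟨1, (HamBar n).one_mem, 0, by group⟩
  rw [hb, Subgroup.mem_bot] at h1
  exact hne h1

/-- (B) -/
theorem part_B (hB : S_BL) (hL : S_LER2) (hn : 0 < n) {ρ : ℝ} (hρ : 0 < ρ) (hρ1 : ρ ≤ 1)
    {m : ℕ} (h : ∀ g ∈ Bl n ρ, g ∈ Wc n 1 (ρ / 2) m) :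
    (∀ g ∈ Bl n ρ, g ∈ Mono (HamBar n)) ∧
    (∀ t : ℝ, 0 < t → t ≤ 1 → ∀ g ∈ Bl n (t * ρ), g ∈ Wc n 1 (t * ρ / 2) m) ∧
    ∀ g ∈ Bl n (ρ / 800), g ∈ Cm n (1 / 100) (m + 2) := by
  obtain ⟨h1, h2, h3⟩ := hL n hn ρ m hρ hρ1 h
  refine ⟨h3 (Mono (HamBar n)) (fun g hg x hx => (Mono_norm _).2 g hg x hx) ?_, h2, h1⟩
  intro f hf g hg
  have hs : ∀ a ∈ Bl n (1 / 100), Supp (D (0 : E n) (1 / 100)) a := by
    intro a ha
    refine Supp.mono ?_ ((hB n).2.2.2.2.2.2.2 (1 / 100) a ha)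
    intro x hx
    have h4 : nm x < 1 / 100 := hx
    show nm (x - 0) ≤ 1 / 100
    rw [sub_zero]
    exact h4.le
  exact hSm n hn (HamBar n) mid_HamBar 0 0 (1 / 100) (1 / 100) (by norm_num) (by norm_num) (by norm_num)
    (by norm_num) (by rw [nm_zero]; norm_num) (by rw [nm_zero]; norm_num) f g
    (Bl_sub hB (by norm_num) hf) (Bl_sub hB (by norm_num) hg) (hs f hf) (hs g hg)

/-! ### the group `HamBar n` -/

/-- `BallHam` for `HamBar n` -/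
def BH (n : ℕ) (ρ : ℝ) : Set (HamBar n) :=
  {g | ∃ u : HamBar n, ∀ x : E n, (g : E n ≃ₜ E n) x = ρ • (u : E n ≃ₜ E n) (ρ⁻¹ • x)}

/-- `ProdConj` for `HamBar n` -/
def PCj (n : ℕ) (r : ℝ) (m : ℕ) : Set (HamBar n) :=
  {g | ∃ l : List (HamBar n × HamBar n), l.length = m ∧ (∀ a ∈ l, a.2 ∈ BH n r) ∧
    g = (l.map fun a => a.1 * a.2 * a.1⁻¹).prod}

/-- `ProdComm` for `HamBar n` -/
def PCm (n : ℕ) (t : ℝ) (m : ℕ) : Set (HamBar n) :=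
  {g | ∃ l : List (HamBar n × HamBar n), l.length = m ∧
    (∀ a ∈ l, a.1 ∈ BH n t ∧ a.2 ∈ BH n t) ∧ g = (l.map fun a => ⁅a.1, a.2⁆).prod}

/-- `BoundedFrag` for `HamBar n` -/
def BF (n : ℕ) (ρ : ℝ) : Prop := ∃ m : ℕ, ∀ g ∈ BH n ρ, g ∈ PCj n (ρ / 2) m

theorem mem_BH {ρ : ℝ} (hρ : 0 < ρ) {g : HamBar n} :
    g ∈ BH n ρ ↔ (g.1 : E n ≃ₜ E n) ∈ Bl n ρ := by
  constructor
  · rintro ⟨u, hu⟩
    refine ⟨hρ, u.1, u.2, ?_⟩
    apply Homeomorph.ext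
    intro x
    exact hu x
  · rintro ⟨h, u, hu, e⟩
    refine ⟨⟨u, hu⟩, fun x => ?_⟩
    have h2 : (g.1 : E n ≃ₜ E n) x = (dil ρ h * u * (dil ρ h)⁻¹ : E n ≃ₜ E n) x := by rw [e]
    exact h2

theorem mem_PCj (hB : S_BL) {r : ℝ} (hr : 0 < r) (hr1 : r ≤ 1) (m : ℕ) {g : HamBar n} :
    g ∈ PCj n r m ↔ (g : E n ≃ₜ E n) ∈ Wc n 1 r m := by
  induction m generalizing g with
  | zero =>
    constructor
    · rintro ⟨l, hl, -, rfl⟩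
      rw [List.length_eq_zero_iff.1 hl]
      exact rfl
    · intro h
      exact ⟨[], rfl, fun a ha => absurd ha (List.not_mem_nil), Subtype.ext h⟩
  | succ m ih =>
    constructor
    · rintro ⟨l, hl, hb, rfl⟩
      match l, hl, hb with
      | a :: l, hl, hb =>
        have h1 : (l.map fun a => a.1 * a.2 * a.1⁻¹).prod ∈ PCj n r m :=
          ⟨l, by simpa using hl, fun c hc => hb c (List.mem_cons_of_mem _ hc), rfl⟩
        exact ⟨a.1, (Bl_one hB).2 a.1.2, a.2, (mem_BH hr).1 (hb a List.mem_cons_self), _, ih.1 h1, rfl⟩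
    · rintro ⟨h, hh, b, hb, w, hw, e⟩
      obtain ⟨l, h1, h2, h3⟩ := ih.2 (show ((⟨w, Wc_sub hB hr1 m hw⟩ : HamBar n) : E n ≃ₜ E n) ∈ _ from hw)
      refine ⟨(⟨h, (Bl_one hB).1 hh⟩, ⟨b, Bl_sub hB hr1 hb⟩) :: l, by simp [h1], ?_, ?_⟩
      · intro a ha
        rcases List.mem_cons.1 ha with rfl | ha
        · exact (mem_BH hr).2 hb
        · exact h2 a ha
      · rw [List.map_cons, List.prod_cons, ← h3]
        exact Subtype.ext e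

theorem Cm_sub (hB : S_BL) {t : ℝ} (ht1 : t ≤ 1) (m : ℕ) {g : E n ≃ₜ E n} (hg : g ∈ Cm n t m) :
    g ∈ HamBar n := by
  induction m generalizing g with
  | zero => rw [show g = 1 from hg]; exact (HamBar n).one_mem
  | succ m ih =>
    obtain ⟨x, hx, y, hy, c, hc, rfl⟩ := hg
    have hx' := Bl_sub hB ht1 hx
    have hy' := Bl_sub hB ht1 hy
    exact (HamBar n).mul_mem ((HamBar n).mul_mem ((HamBar n).mul_mem ((HamBar n).mul_mem hx' hy')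
      ((HamBar n).inv_mem hx')) ((HamBar n).inv_mem hy')) (ih hc)

theorem mem_PCm (hB : S_BL) {t : ℝ} (ht : 0 < t) (ht1 : t ≤ 1) (m : ℕ) {g : HamBar n} :
    (g : E n ≃ₜ E n) ∈ Cm n t m → g ∈ PCm n t m := by
  induction m generalizing g with
  | zero =>
    intro h
    exact ⟨[], rfl, fun a ha => absurd ha (List.not_mem_nil), Subtype.ext h⟩
  | succ m ih =>
    rintro ⟨x, hx, y, hy, c, hc, e⟩
    obtain ⟨l, h1, h2, h3⟩ := ih (show ((⟨c, Cm_sub hB ht1 m hc⟩ : HamBar n) : E n ≃ₜ E n) ∈ _ from hc)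
    refine ⟨(⟨x, Bl_sub hB ht1 hx⟩, ⟨y, Bl_sub hB ht1 hy⟩) :: l, by simp [h1], ?_, ?_⟩
    · intro a ha
      rcases List.mem_cons.1 ha with rfl | ha
      · exact ⟨(mem_BH ht).2 hx, (mem_BH ht).2 hy⟩
      · exact h2 a ha
    · rw [List.map_cons, List.prod_cons, ← h3]
      exact Subtype.ext e

theorem Frg_iff (hB : S_BL) {ρ : ℝ} (hρ : 0 < ρ) (hρ1 : ρ ≤ 1) : BF n ρ ↔ Frg n ρ := by
  constructor
  · rintro ⟨m, hm⟩
    refine ⟨m, fun g hg => ?_⟩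
    have h1 := hm ⟨g, Bl_sub hB hρ1 hg⟩ ((mem_BH hρ).2 hg)
    exact (mem_PCj hB (by linarith) (by linarith) m).1 h1
  · rintro ⟨m, hm⟩
    refine ⟨m, fun g hg => ?_⟩
    exact (mem_PCj hB (by linarith) (by linarith) m).2 (hm _ ((mem_BH hρ).1 hg))

/-- the smallest normal subgroup -/
def SS (n : ℕ) : Subgroup (HamBar n) := (Mono (HamBar n)).subgroupOf (HamBar n)

theorem mem_SS {g : HamBar n} : g ∈ SS n ↔ (g.1 : E n ≃ₜ E n) ∈ Mono (HamBar n) :=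
  Subgroup.mem_subgroupOf

/-- a subgroup of homeomorphisms normalized by the group -/
theorem ncl_le {N : Subgroup (E n ≃ₜ E n)} (hN : ∀ g ∈ HamBar n, ∀ x ∈ N, g * x * g⁻¹ ∈ N)
    {Z : Set (HamBar n)} (hZ : ∀ z ∈ Z, (z.1 : E n ≃ₜ E n) ∈ N) {g : HamBar n}
    (hg : g ∈ Subgroup.normalClosure Z) : (g.1 : E n ≃ₜ E n) ∈ N := by
  have h1 : (N.subgroupOf (HamBar n)).Normal :=
    ⟨fun x hx g => by
      rw [Subgroup.mem_subgroupOf] at hx ⊢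
      exact hN g.1 g.2 _ hx⟩
  have h2 : Subgroup.normalClosure Z ≤ N.subgroupOf (HamBar n) := by
    apply Subgroup.normalClosure_le_normal
    intro z hz
    exact Subgroup.mem_subgroupOf.2 (hZ z hz)
  exact Subgroup.mem_subgroupOf.1 (h2 hg)

theorem final (hB : S_BL) (hW : S_WC) (hL : S_LER2) (hH : S_HUMP) (n : ℕ) (hn : 0 < n) :
    ∃ S : Subgroup (HamBar n), S.Normal ∧ IsSimpleGroup S ∧
      (∀ N : Subgroup (HamBar n), N.Normal → N ≠ ⊥ → S ≤ N) ∧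
      ((∃ ρ : ℝ, 0 < ρ ∧ ρ < 1 ∧ BH n ρ ⊆ S) ↔ ∃ ρ : ℝ, 0 < ρ ∧ ρ < 1 ∧ BF n ρ) ∧
      (∀ ρ : ℝ, 0 < ρ → ρ ≤ 1 → BF n ρ → BH n ρ ⊆ S ∧
        (∀ t : ℝ, 0 < t → t ≤ 1 → BF n (t * ρ)) ∧
        ∃ m : ℕ, BH n (ρ / 800) ⊆ PCm n (1 / 100) m) ∧
      (IsSimpleGroup (HamBar n) ↔
        (∀ r : ℝ, 0 < r → r < 1 → Subgroup.normalClosure (BH n r) = ⊤) ∧
        ∃ ρ : ℝ, 0 < ρ ∧ ρ < 1 ∧ BF n ρ) ∧
      ((¬ ∃ ρ : ℝ, 0 < ρ ∧ ρ < 1 ∧ BF n ρ) → ∀ Z : Set (HamBar n), Z.Countable →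
        (∀ r : ℝ, 0 < r → r < 1 → Z ⊆ Subgroup.normalClosure (BH n r)) →
        ∀ ρ : ℝ, 0 < ρ → ρ ≤ 1 → ¬ BH n ρ ⊆ Subgroup.normalClosure Z) := by
  obtain ⟨S, s1, s2, s3, -⟩ := main_of' hSm hCo hn (HamBar n) (fun u hu => (mid_HamBar (n := n)).ham u hu)
    (mid_HamBar (n := n)).le
  have hSne : S ≠ ⊥ := by
    rintro rfl
    have := s2.toNontrivial
    exact not_subsingleton _ (inferInstance : Subsingleton (⊥ : Subgroup (HamBar n)))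
  have hSe : S = SS n :=
    le_antisymm (s3 _ (MS_normal (HamBar n)) (MS_ne hn mid_HamBar)) (MS_le s1 hSne)
  subst hSe
  have hset : ∀ ρ : ℝ, 0 < ρ → ρ ≤ 1 → (BH n ρ ⊆ (SS n : Set (HamBar n)) ↔
      ∀ g ∈ Bl n ρ, g ∈ Mono (HamBar n)) := by
    intro ρ hρ hρ1
    constructor
    · intro h g hg
      exact mem_SS.1 (h ((mem_BH hρ).2 hg : (⟨g, Bl_sub hB hρ1 hg⟩ : HamBar n) ∈ BH n ρ))
    · intro h g hg
      exact mem_SS.2 (h _ ((mem_BH hρ).1 hg))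
  have hAB : ∀ ρ : ℝ, 0 < ρ → ρ ≤ 1 → BF n ρ → BH n ρ ⊆ (SS n : Set (HamBar n)) ∧
        (∀ t : ℝ, 0 < t → t ≤ 1 → BF n (t * ρ)) ∧
        ∃ m : ℕ, BH n (ρ / 800) ⊆ PCm n (1 / 100) m := by
    intro ρ hρ hρ1 h
    obtain ⟨m, hm⟩ := (Frg_iff hB hρ hρ1).1 h
    obtain ⟨h1, h2, h3⟩ := part_B hB hL hn hρ hρ1 hm
    refine ⟨(hset ρ hρ hρ1).2 h1, fun t ht ht1 => ?_, m + 2, fun g hg => ?_⟩
    · exact (Frg_iff hB (mul_pos ht hρ) (mul_le_one₀ ht1 hρ.le hρ1)).2 ⟨m, h2 t ht ht1⟩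
    · exact mem_PCm hB (by norm_num) (by norm_num) _ (h3 _ ((mem_BH (by positivity)).1 hg))
  have hiff : (∃ ρ : ℝ, 0 < ρ ∧ ρ < 1 ∧ BH n ρ ⊆ (SS n : Set (HamBar n))) ↔
      ∃ ρ : ℝ, 0 < ρ ∧ ρ < 1 ∧ BF n ρ := by
    constructor
    · rintro ⟨ρ, hρ, hρ1, h⟩
      obtain ⟨ρ', h1, h2, h3⟩ := part_A hB hW hH hn hρ hρ1.le ((hset ρ hρ hρ1.le).1 h)
      exact ⟨ρ', h1, h2, (Frg_iff hB h1 h2.le).2 h3⟩
    · rintro ⟨ρ, hρ, hρ1, h⟩
      exact ⟨ρ, hρ, hρ1, (hAB ρ hρ hρ1.le h).1⟩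
  refine ⟨SS n, s1, s2, s3, hiff, hAB, ?_, ?_⟩
  · constructor
    · intro hs
      have hSt : SS n = ⊤ := by
        rcases hs.eq_bot_or_eq_top_of_normal (SS n) s1 with h | h
        · exact absurd h hSne
        · exact h
      refine ⟨fun r hr hr1 => ?_, ?_⟩
      · rw [eq_top_iff, ← hSt]
        apply s3 _ Subgroup.normalClosure_normal
        intro hb
        obtain ⟨z, hz, hne⟩ := exists_ne hn
        have h1 : dil r hr * z * (dil r hr)⁻¹ ∈ Bl n r := ⟨hr, z, Mono_sub hz, rfl⟩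
        have h2 : (⟨_, Bl_sub hB hr1.le h1⟩ : HamBar n) ∈ Subgroup.normalClosure (BH n r) :=
          Subgroup.subset_normalClosure ((mem_BH hr).2 h1)
        rw [hb, Subgroup.mem_bot] at h2
        have h3 : dil r hr * z * (dil r hr)⁻¹ = 1 := congrArg Subtype.val h2
        apply hne
        have h4 : z = (dil r hr)⁻¹ * (dil r hr * z * (dil r hr)⁻¹) * dil r hr := by group
        rw [h4, h3]
        group
      · rw [← hiff]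
        refine ⟨1 / 2, by norm_num, by norm_num, ?_⟩
        rw [hSt]
        exact fun _ _ => Subgroup.mem_top _
    · rintro ⟨h1, ρ, hρ, hρ1, h2⟩
      have h3 := (hAB ρ hρ hρ1.le h2).1
      have hSt : SS n = ⊤ := by
        rw [eq_top_iff, ← h1 ρ hρ hρ1]
        exact Subgroup.normalClosure_le_normal h3
      have hnt : Nontrivial (HamBar n) := by
        obtain ⟨x, hx⟩ := (Subgroup.ne_bot_iff_exists_ne_one).1 hSne
        exact ⟨⟨x, 1, fun h => hx (Subtype.ext h)⟩⟩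
      refine ⟨fun N hN => ?_⟩
      by_cases hb : N = ⊥
      · exact Or.inl hb
      · right
        rw [eq_top_iff, ← hSt]
        exact s3 N hN hb
  · intro hno Z hZc hZ ρ hρ hρ1 hsub
    apply hno
    have hfr : ∀ z ∈ Z, ∀ r : ℝ, 0 < r → ∃ m : ℕ, (z.1 : E n ≃ₜ E n) ∈ Wc n 1 r m := by
      intro z hz r hr
      rcases lt_or_ge r 1 with h1 | h1
      · exact ncl_le (N := Wg hW n r hr) (Wg_norm hB hW hr h1.le).2
          (fun b hb => ⟨1, (hW n 1 r one_pos hr).2.2.2.2.2.1 _ ((mem_BH hr).1 hb)⟩) (hZ r hr h1 hz)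
      · exact ⟨1, (hW n 1 r one_pos hr).2.2.2.2.2.1 _ ((hB n).2.2.2.2.1 1 r h1 ((Bl_one hB).2 z.2))⟩
    -- an enumeration
    obtain ⟨f, hf, hZf⟩ : ∃ f : ℕ → (E n ≃ₜ E n), (∀ (j : ℕ) (r : ℝ), 0 < r → ∃ m : ℕ, f j ∈ Wc n 1 r m) ∧
        ∀ z ∈ Z, (z.1 : E n ≃ₜ E n) ∈ ncl f := by
      rcases Z.eq_empty_or_nonempty with h0 | h0
      · refine ⟨fun _ => 1, fun _ r hr => ⟨0, rfl⟩, fun z hz => ?_⟩
        rw [h0] at hz
        exact absurd hz (notMem_empty z)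
      · obtain ⟨e, he⟩ := hZc.exists_eq_range h0
        refine ⟨fun j => (e j).1, fun j r hr => hfr (e j) (by rw [he]; exact ⟨j, rfl⟩) r hr, fun z hz => ?_⟩
        rw [he] at hz
        obtain ⟨j, rfl⟩ := hz
        exact Subgroup.subset_closure ⟨1, (HamBar n).one_mem, j, by group⟩
    obtain ⟨ρ', h1, h2, h3⟩ := hH n hn ρ hρ hρ1 f hf (fun g hg =>
      ncl_le (N := ncl f) (fun g hg x hx => ncl_conj f hg hx) hZf
        (hsub ((mem_BH hρ).2 hg : (⟨g, Bl_sub hB hρ1 hg⟩ : HamBar n) ∈ BH n ρ)))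
    exact ⟨ρ', h1, h2, (Frg_iff hB h1 h2.le).2 h3⟩

end Pool.Agent.NH49.LR
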