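import Pool.Agent.NH49.LR.Stm
import Pool.Agent.R773.HN.Grp
import Pool.Agent.Y419.HB.Dil

/-!
# Project LR, LR-BL: the groups `Bl n s`
-/

set_option autoImplicit false

open Set Filter Topology Function
open scoped commutatorElement

namespace Pool.Agent.NH49.LR

open Pool.Agent.Y453.HB
open Pool.Agent.R773.HN

namespace BL

variable {n : ℕ}

theorem dil_mul {s t : ℝ} (hs : 0 < s) (ht : 0 < t) :
    (dil s hs * dil t ht : E n ≃ₜ E n) = dil (s * t) (mul_pos hs ht) := by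
  refine Homeomorph.ext fun x => ?_
  rw [mul_apply, dil_apply, dil_apply, dil_apply, smul_smul]

theorem dil_congr {s t : ℝ} (hs : 0 < s) (ht : 0 < t) (h : s = t) :
    (dil s hs : E n ≃ₜ E n) = dil t ht := by
  subst h
  rfl

theorem dil_one (h : (0 : ℝ) < 1) : (dil 1 h : E n ≃ₜ E n) = 1 := by
  refine Homeomorph.ext fun x => ?_
  rw [dil_apply, one_smul]
  rfl

theorem dil_memG {s : ℝ} (hs : 0 < s) (hs1 : s ≤ 1) {φ : E n ≃ₜ E n} (hφ : φ ∈ HamBar n) :
    dil s hs * φ * (dil s hs)⁻¹ ∈ HamBar n := by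
  rw [mem_iff Pool.Agent.Y907.HB.mul Pool.Agent.Y510.HB.inv Pool.Agent.Y309.HB.uc] at hφ ⊢
  exact dil_mem Pool.Agent.Y419.HB.dil_ham Pool.Agent.Y309.HB.uc hs hs1 hφ

end BL

open BL in
theorem t_BL : S_BL := by
  intro n
  refine ⟨?_, ?_, ?_, ?_, ?_, ?_, ?_, ?_⟩
  · ext φ
    constructor
    · rintro ⟨hs, g, hg, rfl⟩
      rw [dil_one, one_mul, inv_one, mul_one]
      exact hg
    · intro h
      refine ⟨one_pos, φ, h, ?_⟩
      rw [dil_one, one_mul, inv_one, mul_one]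
  · intro s hs
    exact ⟨hs, 1, one_mem _, by group⟩
  · rintro s _ ⟨hs, g, hg, rfl⟩ _ ⟨hs', g', hg', rfl⟩
    exact ⟨hs, g * g', mul_mem hg hg', by group⟩
  · rintro s _ ⟨hs, g, hg, rfl⟩
    exact ⟨hs, g⁻¹, inv_mem hg, by group⟩
  · rintro s t hst _ ⟨hs, g, hg, rfl⟩
    have ht : 0 < t := lt_of_lt_of_le hs hst
    have hr : 0 < s / t := div_pos hs ht
    refine ⟨ht, _, dil_memG hr ((div_le_one ht).2 hst) hg, ?_⟩
    have h1 : (dil s hs : E n ≃ₜ E n) = dil t ht * dil (s / t) hr := by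
      rw [dil_mul]
      exact dil_congr _ _ (by field_simp)
    rw [h1]
    group
  · rintro s t ht _ ⟨hs, g, hg, rfl⟩
    refine ⟨mul_pos ht hs, g, hg, ?_⟩
    rw [← dil_mul ht hs]
    group
  · rintro s t ht _ ⟨hs, g, hg, rfl⟩
    have hs' : 0 < s := (pos_iff_pos_of_mul_pos hs).1 ht
    refine ⟨hs', g, hg, ?_⟩
    rw [← dil_mul ht hs']
    group
  · rintro s _ ⟨hs, g, hg, rfl⟩ x hx
    obtain ⟨K, -, hK, hsup⟩ := cpt_supp hg
    rw [mul_apply, mul_apply, dil_inv_apply, dil_apply, hsup, smul_smul, mul_inv_cancel₀ hs.ne',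
      one_smul]
    intro hc
    have h1 := nm_lt_one (hK hc)
    rw [nm_smul, abs_of_pos (inv_pos.2 hs)] at h1
    apply hx
    show nm x < s
    rw [inv_mul_lt_iff₀ hs, mul_one] at h1
    exact h1

end Pool.Agent.NH49.LR
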