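import Pool.Agent.NH49.LR.Stm

/-!
# Project LR, part LR-CM: products of commutators
-/

set_option autoImplicit false

open Set Filter Topology Function
open scoped commutatorElement

namespace Pool.Agent.NH49.LR

open Pool.Agent.Y453.HB
open Pool.Agent.R773.HN

namespace CM

theorem conj_comm {G : Type} [Group G] (h x y c : G) :
    h * (⁅x, y⁆ * c) * h⁻¹ = ⁅h * x * h⁻¹, h * y * h⁻¹⁆ * (h * c * h⁻¹) := by
  simp only [commutatorElement_def]
  group

theorem frag {G : Type} [Group G] (h b c g : G) :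
    h * b * h⁻¹ * (c * g) = ⁅h, b⁆ * (b * c * b⁻¹) * (b * g) := by
  simp only [commutatorElement_def]
  group

theorem mul_mem (n : ℕ) (t : ℝ) (m k : ℕ) : ∀ a ∈ Cm n t m, ∀ b ∈ Cm n t k,
    a * b ∈ Cm n t (m + k) := by
  induction m with
  | zero =>
    intro a ha b hb
    have ha' : a = 1 := ha
    rw [ha', one_mul, Nat.zero_add]
    exact hb
  | succ m ih =>
    rintro a ⟨x, hx, y, hy, c, hc, rfl⟩ b hb
    rw [Nat.succ_add]
    exact ⟨x, hx, y, hy, c * b, ih c hc b hb, mul_assoc _ _ _⟩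

theorem conj_mem {n : ℕ} {t t' : ℝ} {h : E n ≃ₜ E n}
    (hh : ∀ x ∈ Bl n t, h * x * h⁻¹ ∈ Bl n t') (m : ℕ) :
    ∀ a ∈ Cm n t m, h * a * h⁻¹ ∈ Cm n t' m := by
  induction m with
  | zero =>
    intro a ha
    have ha' : a = 1 := ha
    rw [ha', mul_one, mul_inv_cancel]
    exact rfl
  | succ m ih =>
    rintro a ⟨x, hx, y, hy, c, hc, rfl⟩
    exact ⟨_, hh x hx, _, hh y hy, _, ih c hc, conj_comm h x y c⟩

end CM

open CM in
theorem t_CM (hB : S_BL) : S_CM := by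
  intro n t ht
  obtain ⟨-, h1, hmul, hinv, hmono, hdil, -, -⟩ := hB n
  have hconj : ∀ h ∈ Bl n t, ∀ x ∈ Bl n t, h * x * h⁻¹ ∈ Bl n t := fun h hh x hx =>
    hmul t _ (hmul t h hh x hx) _ (hinv t h hh)
  refine ⟨mul_mem n t, fun m a ha h hh => conj_mem (hconj h hh) m a ha,
    fun m s hs a ha => conj_mem (fun x hx => hdil t s hs x hx) m a ha, ?_⟩
  intro r hr hrt m
  induction m with
  | zero =>
    intro g hg
    have hg' : g = 1 := hg
    exact ⟨1, rfl, 1, h1 r hr, by rw [hg', mul_one]⟩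
  | succ m ih =>
    rintro g ⟨h, hh, b, hb, w, hw, rfl⟩
    obtain ⟨c, hc, g1, hg1, rfl⟩ := ih w hw
    have hbt := hmono r t hrt hb
    refine ⟨⁅h, b⁆ * (b * c * b⁻¹), ?_, b * g1, hmul r b hb g1 hg1, frag h b c g1⟩
    exact ⟨h, hh, b, hbt, b * c * b⁻¹, conj_mem (hconj b hbt) m c hc, rfl⟩

end Pool.Agent.NH49.LR
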