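import Pool.Agent.R773.HN.Defs

/-!
# Hamiltonian homeomorphisms of smaller balls and bounded fragmentation: definitions

`E n` is `ℝ^{2n}`; `HamHomeo n` is the group of the compactly supported Hamiltonian homeomorphisms of the
open unit ball (`Pool/Agent/R773/HN/Defs.lean`, `Pool/Agent/Y453/HB/Stm.lean`, the same as in the frozen
statement S13311).
-/

set_option autoImplicit false

open Pool.Agent.Y453.HB (E)
open Pool.Agent.R773.HN (Homeos HamHomeo)
open scoped commutatorElement

namespace Pool.Agent.NH49.LR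

/-- the elements `x ↦ ρ u(x / ρ)` of `HamHomeo n`, with `u` in `HamHomeo n`: for `0 < ρ ≤ 1` these are the
compactly supported Hamiltonian homeomorphisms of the open ball of radius `ρ` with centre `0` -/
def BallHam (n : ℕ) (ρ : ℝ) : Set (HamHomeo n) :=
  {g | ∃ u : HamHomeo n, ∀ x : E n, g.1.map x = ρ • u.1.map (ρ⁻¹ • x)}

/-- the products of `m` conjugates, by elements of `HamHomeo n`, of elements of `BallHam n r` -/
def ProdConj (n : ℕ) (r : ℝ) (m : ℕ) : Set (HamHomeo n) :=
  {g | ∃ l : List (HamHomeo n × HamHomeo n), l.length = m ∧ (∀ a ∈ l, a.2 ∈ BallHam n r) ∧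
    g = (l.map fun a => a.1 * a.2 * a.1⁻¹).prod}

/-- the products of `m` commutators of elements of `BallHam n t` -/
def ProdComm (n : ℕ) (t : ℝ) (m : ℕ) : Set (HamHomeo n) :=
  {g | ∃ l : List (HamHomeo n × HamHomeo n), l.length = m ∧
    (∀ a ∈ l, a.1 ∈ BallHam n t ∧ a.2 ∈ BallHam n t) ∧ g = (l.map fun a => ⁅a.1, a.2⁆).prod}

/-- bounded fragmentation at the radius `ρ`: for some `m` every Hamiltonian homeomorphism of the ball of
radius `ρ` is a product of `m` conjugates of Hamiltonian homeomorphisms of the ball of radius `ρ / 2` -/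
def BoundedFrag (n : ℕ) (ρ : ℝ) : Prop := ∃ m : ℕ, ∀ g ∈ BallHam n ρ, g ∈ ProdConj n (ρ / 2) m

/-- bounded fragmentation at some radius less than `1` -/
def HasBoundedFrag (n : ℕ) : Prop := ∃ ρ : ℝ, 0 < ρ ∧ ρ < 1 ∧ BoundedFrag n ρ

/-- the elements which are in the normal closure of every set `BallHam n r`, `0 < r < 1` -/
def Fragmentable (n : ℕ) : Set (HamHomeo n) :=
  {g | ∀ r : ℝ, 0 < r → r < 1 → g ∈ Subgroup.normalClosure (BallHam n r)}

/-- the consequences of bounded fragmentation at the radius `ρ`, for the smallest normal subgroup `S` -/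
def FragConsequences (n : ℕ) (S : Subgroup (HamHomeo n)) (ρ : ℝ) : Prop :=
  BallHam n ρ ⊆ S ∧ (∀ t : ℝ, 0 < t → t ≤ 1 → BoundedFrag n (t * ρ)) ∧
    ∃ m : ℕ, BallHam n (ρ / 800) ⊆ ProdComm n (1 / 100) m

end Pool.Agent.NH49.LR
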