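import Pool.Agent.NH49.LR.Stm

/-!
# LR-HUMP: the sliding hump
-/

set_option autoImplicit false

open Set Filter Topology Function
open scoped commutatorElement

namespace Pool.Agent.NH49.LR

open Pool.Agent.Y453.HB
open Pool.Agent.R773.HN

namespace Hump

variable {n : ℕ}

theorem exists_vec (hn : 0 < n) {d : ℝ} (hd : 0 < d) : ∃ v : E n, nm v = d := by
  refine ⟨(Pi.single ⟨0, hn⟩ d, 0), ?_⟩
  have : Q ((Pi.single ⟨0, hn⟩ d, 0) : E n) = d ^ 2 := by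
    unfold Q
    rw [Finset.sum_eq_single ⟨0, hn⟩]
    · simp
    · intro j _ hj
      simp [hj]
    · intro h
      exact absurd (Finset.mem_univ _) h
  unfold nm
  rw [this, Real.sqrt_sq hd.le]

theorem dil_mul (s t : ℝ) (hs : 0 < s) (ht : 0 < t) (hst : 0 < s * t) :
    (dil s hs * dil t ht : E n ≃ₜ E n) = dil (s * t) hst := by
  ext1 x
  show s • (t • x) = (s * t) • x
  rw [mul_smul]

theorem Bl_mem_iff {s : ℝ} (hs : 0 < s) {g : E n ≃ₜ E n} (hg : g ∈ HamBar n) :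
    dil s hs * g * (dil s hs)⁻¹ ∈ Bl n s := ⟨hs, g, hg, rfl⟩

/-- bounds for finitely many elements -/
theorem bound (hW : S_WC) (Z : ℕ → (E n ≃ₜ E n))
    (hZ : ∀ (j : ℕ) (r : ℝ), 0 < r → ∃ m : ℕ, Z j ∈ Wc n 1 r m) {r : ℝ} (hr : 0 < r) (N : ℕ) :
    ∃ H : ℕ, ∀ j ≤ N, Z j ∈ Wc n 1 r H := by
  choose m hm using fun j => hZ j r hr
  refine ⟨(Finset.range (N + 1)).sup m, fun j hj => ?_⟩
  exact (hW n 1 r one_pos hr).2.1 _ _ (Finset.le_sup (f := m) (by simpa using Nat.lt_succ_of_le hj))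
    (hm j)

end Hump

open Hump in
theorem t_HUMP (hB : S_BL) (hW : S_WC) (hL : S_IPL) (hM : S_PIM) (hT : S_PIT) (hS : S_PIS)
    (hN : S_NCL) (hR : S_REC) : S_HUMP := by
  intro n hn ρ hρ hρ1 Z hZ hncl
  by_contra hcon
  have hF : ∀ ρ' : ℝ, 0 < ρ' → ρ' < 1 → ¬ Frg n ρ' := fun ρ' h0 h1 h => hcon ⟨ρ', h0, h1, h⟩
  obtain ⟨z0, hz0⟩ := exists_vec hn (show (0 : ℝ) < 3 / 4 by norm_num)
  have hG : Geo n (1 / 16) (1 / 8) z0 :=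
    ⟨by norm_num, by norm_num, by norm_num, by rw [hz0]; norm_num, by rw [hz0]; norm_num⟩
  obtain ⟨P, hP⟩ := hL n (1 / 16) (1 / 8) z0 hG
  obtain ⟨hB1, hBone, hBmul, hBinv, hBmono, hBdil, -, -⟩ := hB n
  -- the radii
  obtain ⟨ρ', hρ'⟩ : ∃ ρ' : ℕ → ℝ, ∀ k, ρ' k = ρ * ((1 / 16) ^ k * (1 / 8)) := ⟨_, fun _ => rfl⟩
  have hρ'0 : ∀ k, 0 < ρ' k := fun k => by rw [hρ' k]; positivity
  have hρ'1 : ∀ k, ρ' k < 1 := fun k => by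
    rw [hρ' k]
    have h1 : ((1 / 16 : ℝ)) ^ k ≤ 1 := pow_le_one₀ (by norm_num) (by norm_num)
    have h2 : ((1 / 16 : ℝ)) ^ k * (1 / 8) ≤ 1 / 8 := by linarith
    calc ρ * ((1 / 16) ^ k * (1 / 8)) ≤ 1 * (1 / 8) :=
          mul_le_mul hρ1 h2 (by positivity) zero_le_one
      _ < 1 := by norm_num
  have hr0 : ∀ k, 0 < ρ' k / 2 := fun k => by have := hρ'0 k; linarith
  have hWk := fun k => hW n 1 (ρ' k / 2) one_pos (hr0 k)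
  -- the elements
  have hGm : ∀ b : ℕ → (E n ≃ₜ E n), (∀ k, b k ∈ HamBar n) →
      dil ρ hρ * P b * (dil ρ hρ)⁻¹ ∈ Bl n ρ := fun b hb => ⟨hρ, P b, hP.hmem b hb, rfl⟩
  have hLex : ∀ g ∈ Bl n ρ, ∀ k : ℕ, ∃ L : ℕ, g ∈ Wc n 1 (ρ' k / 2) L := by
    intro g hg k
    obtain ⟨N, hN'⟩ := hN n Z g (hncl g hg)
    obtain ⟨H, hH⟩ := bound hW Z hZ (hr0 k) N
    exact ⟨N * H, hN' _ (hr0 k) H hH⟩
  choose H hH using fun k => bound hW Z hZ (hr0 k) k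
  -- the recursion
  obtain ⟨b, hb⟩ := hR (E n ≃ₜ E n) 1 (fun k f a => a ∈ HamBar n ∧ ((∀ i, f i ∈ HamBar n) →
    ∃ L : ℕ, dil ρ hρ * P f * (dil ρ hρ)⁻¹ ∈ Wc n 1 (ρ' k / 2) L ∧
      dil (ρ' k) (hρ'0 k) * a * (dil (ρ' k) (hρ'0 k))⁻¹ ∉ Wc n 1 (ρ' k / 2) (L + k * H k + 1)))
    (by
      intro k f
      by_cases hf : ∀ i, f i ∈ HamBar n
      · obtain ⟨L, hL'⟩ := hLex _ (hGm f hf) k
        have h1 := hF (ρ' k) (hρ'0 k) (hρ'1 k)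
        unfold Frg at h1
        push Not at h1
        obtain ⟨g, ⟨h0, a, ha, rfl⟩, hg⟩ := h1 (L + k * H k + 1)
        exact ⟨a, ha, fun _ => ⟨L, hL', hg⟩⟩
      · exact ⟨1, (HamBar n).one_mem, fun h => absurd h hf⟩)
  have hbm : ∀ k, b k ∈ HamBar n := fun k => (hb k).1
  have hgB := hGm b hbm
  obtain ⟨N, hN'⟩ := hN n Z _ (hncl _ hgB)
  have hgW := hN' _ (hr0 N) (H N) (hH N)
  -- the three parts
  obtain ⟨hd, hhd⟩ : ∃ hd : ℕ → (E n ≃ₜ E n), hd = fun i => if i < N then b i else 1 := ⟨_, rfl⟩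
  obtain ⟨sg, hsg⟩ : ∃ sg : ℕ → (E n ≃ₜ E n), sg = fun i => if i = N then b i else 1 := ⟨_, rfl⟩
  obtain ⟨tl, htl⟩ : ∃ tl : ℕ → (E n ≃ₜ E n), tl = fun i => if N < i then b i else 1 := ⟨_, rfl⟩
  have hone : (1 : E n ≃ₜ E n) ∈ HamBar n := (HamBar n).one_mem
  have hhdm : ∀ i, hd i ∈ HamBar n := fun i => by rw [hhd]; dsimp only; split_ifs; exacts [hbm i, hone]
  have hsgm : ∀ i, sg i ∈ HamBar n := fun i => by rw [hsg]; dsimp only; split_ifs; exacts [hbm i, hone]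
  have htlm : ∀ i, tl i ∈ HamBar n := fun i => by rw [htl]; dsimp only; split_ifs; exacts [hbm i, hone]
  have hsplit : P b = P hd * P sg * P tl := by
    rw [← hM n _ _ z0 hG P hP hd sg hhdm hsgm, ← hM n _ _ z0 hG P hP (fun k => hd k * sg k) tl
      (fun k => (HamBar n).mul_mem (hhdm k) (hsgm k)) htlm]
    congr 1
    funext i
    rw [hhd, hsg, htl]
    dsimp only
    rcases lt_trichotomy i N with h | h | h
    · rw [if_pos h, if_neg h.ne, if_neg h.not_gt, mul_one, mul_one]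
    · rw [if_neg (by omega), if_pos h, if_neg (by omega), one_mul, mul_one]
    · rw [if_neg h.not_gt, if_neg h.ne', if_pos h, one_mul, one_mul]
  obtain ⟨L, hL1, hL2⟩ := (hb N).2 (by
    intro i; dsimp only; split_ifs; exacts [hbm i, hone])
  rw [← hhd] at hL1
  -- the tail
  have htl1 : P tl ∈ Bl n ((1 / 16) ^ (N + 1)) := hT n _ _ z0 hG P hP tl htlm (N + 1) fun k hk => by
    rw [htl]; dsimp only; rw [if_neg (by omega)]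
  have htl2 : dil ρ hρ * P tl * (dil ρ hρ)⁻¹ ∈ Wc n 1 (ρ' N / 2) 1 := by
    apply (hWk N).2.2.2.2.2.1
    have h1 := hBdil ((1 / 16) ^ (N + 1)) ρ hρ _ htl1
    have h2 : ρ * (1 / 16) ^ (N + 1) = ρ' N / 2 := by rw [hρ' N, pow_succ]; ring
    rwa [h2] at h1
  -- the single factor
  have hsg2 : dil ρ hρ * P sg * (dil ρ hρ)⁻¹ ∈ Wc n 1 (ρ' N / 2) (L + N * H N + 1) := by
    have h1 : dil ρ hρ * P sg * (dil ρ hρ)⁻¹ = (dil ρ hρ * P hd * (dil ρ hρ)⁻¹)⁻¹ *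
        (dil ρ hρ * P b * (dil ρ hρ)⁻¹) * (dil ρ hρ * P tl * (dil ρ hρ)⁻¹)⁻¹ := by
      rw [hsplit]; group
    rw [h1]
    exact (hWk N).2.2.1 _ _ _ ((hWk N).2.2.1 _ _ _ ((hWk N).2.2.2.1 _ _ hL1) _ hgW) _
      ((hWk N).2.2.2.1 _ _ htl2)
  obtain ⟨κ, hκ, h8, hκ2⟩ := hS n _ _ z0 hG P hP sg hsgm N fun k hk => by
    rw [hsg]; dsimp only; rw [if_neg hk]
  have hsgN : sg N = b N := by rw [hsg]; dsimp only; rw [if_pos rfl]
  rw [hsgN] at hκ2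
  apply hL2
  have hκ' : dil ρ hρ * κ * (dil ρ hρ)⁻¹ ∈ Bl n 1 := hBmono ρ 1 hρ1 ⟨hρ, κ, hκ, rfl⟩
  have h9 := (hWk N).2.2.2.2.1 _ _ hsg2 _ (hBinv 1 _ hκ')
  have h10 : dil (ρ' N) (hρ'0 N) = (dil ρ hρ * dil ((1 / 16) ^ N * (1 / 8)) h8 : E n ≃ₜ E n) := by
    rw [dil_mul ρ _ hρ h8 (mul_pos hρ h8)]
    congr 1
    exact hρ' N
  have h11 : (dil ρ hρ * κ * (dil ρ hρ)⁻¹)⁻¹ * (dil ρ hρ * P sg * (dil ρ hρ)⁻¹) *
      ((dil ρ hρ * κ * (dil ρ hρ)⁻¹)⁻¹)⁻¹ =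
      dil (ρ' N) (hρ'0 N) * b N * (dil (ρ' N) (hρ'0 N))⁻¹ := by
    rw [hκ2, h10]; group
  rwa [h11] at h9

end Pool.Agent.NH49.LR
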