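import Pool.Agent.NH49.LR.Stm
import Pool.Agent.Y496.HB.Prod
import Pool.Agent.Y453.HB.Tri

/-!
Project LR: infinite products of homeomorphisms in shells.
-/

set_option autoImplicit false

open Set Filter Topology Function
open scoped commutatorElement

namespace Pool.Agent.NH49.LR

open Pool.Agent.Y453.HB
open Pool.Agent.R773.HN

namespace IPH

open Pool.Agent.Y496.HB (fixOff mem_fixOff maps comm cp_apply cp_mem rad_anti Sh idx)

variable {n : ℕ} (s : ℝ) (hs : 0 < s) (hs1 : s < 1) (ρ : ℝ) (hρ : 0 < ρ) (e : ℕ → (E n ≃ₜ E n))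

/-- the finite products -/
noncomputable def G (s : ℝ) (hs : 0 < s) (e : ℕ → (E n ≃ₜ E n)) : ℕ → (E n ≃ₜ E n)
  | 0 => 1
  | m + 1 => G s hs e m * cp s hs (e m) m

include hs1 hρ in
theorem G_mem (hcp : ∀ k, cp s hs (e k) k ∈ fixOff (Sh n s ρ k)) (m : ℕ) :
    G s hs e m ∈ fixOff {x : E n | (s ^ m * ρ) ^ 2 < Q x ∧ Q x ≤ ρ ^ 2} := by
  induction m with
  | zero => exact Subgroup.one_mem _
  | succ m ih =>
    intro x hx
    have h1 : x ∉ Sh n s ρ m := by
      rintro ⟨h2, h3⟩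
      apply hx
      refine ⟨h2, h3.trans ?_⟩
      have := rad_anti s hs hs1 ρ hρ (Nat.zero_le m)
      rwa [pow_zero, one_mul] at this
    have h2 : (cp s hs (e m) m) x = x := (hcp m) x h1
    show (G s hs e m * cp s hs (e m) m) x = x
    rw [mul_apply, h2]
    apply ih
    rintro ⟨h3, h4⟩
    exact hx ⟨lt_of_le_of_lt (rad_anti s hs hs1 ρ hρ (Nat.le_succ m)) h3, h4⟩

include hs1 hρ in
theorem G_stable (hcp : ∀ k, cp s hs (e k) k ∈ fixOff (Sh n s ρ k)) {m M : ℕ}
    (hmM : m ≤ M) {x : E n} (hx : (s ^ m * ρ) ^ 2 < Q x) :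
    G s hs e M x = G s hs e m x := by
  induction M, hmM using Nat.le_induction with
  | base => rfl
  | succ M hM ih =>
    have h1 : x ∉ Sh n s ρ M := by
      rintro ⟨_, h3⟩
      exact absurd (h3.trans (rad_anti s hs hs1 ρ hρ hM)) (not_le.mpr hx)
    have h2 : (cp s hs (e M) M) x = x := (hcp M) x h1
    show (G s hs e M * cp s hs (e M) M) x = _
    rw [mul_apply, h2, ih]

include hs1 hρ in
theorem G_ball (hcp : ∀ k, cp s hs (e k) k ∈ fixOff (Sh n s ρ k)) (m M : ℕ) :
    ∀ {x : E n}, Q x ≤ (s ^ m * ρ) ^ 2 → Q (G s hs e M x) ≤ (s ^ m * ρ) ^ 2 := by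
  induction M with
  | zero => intro x hx; exact hx
  | succ M ih =>
    intro x hx
    show Q ((G s hs e M * cp s hs (e M) M) x) ≤ _
    rw [mul_apply]
    apply ih
    by_cases h1 : x ∈ Sh n s ρ M
    · have h2 := maps (hcp M) h1
      have h3 : m ≤ M := by
        by_contra h4
        rw [not_le] at h4
        have h5 := rad_anti s hs hs1 ρ hρ (Nat.succ_le_of_lt h4)
        exact absurd (hx.trans h5) (not_le.mpr h1.1)
      exact h2.2.trans (rad_anti s hs hs1 ρ hρ h3)
    · rw [(hcp M) x h1]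
      exact hx

theorem cp_inv (g : E n ≃ₜ E n) (k : ℕ) : cp s hs g⁻¹ k = (cp s hs g k)⁻¹ := by
  unfold cp
  group

include hs1 hρ in
theorem G_inv (hcp : ∀ k, cp s hs (e k) k ∈ fixOff (Sh n s ρ k)) (m : ℕ) :
    G s hs (fun k => (e k)⁻¹) m * G s hs e m = 1 := by
  induction m with
  | zero => exact one_mul _
  | succ m ih =>
    have hc : G s hs e m * (cp s hs (e m) m)⁻¹ = (cp s hs (e m) m)⁻¹ * G s hs e m := by
      refine comm ?_ (G_mem s hs hs1 ρ hρ e hcp m) (Subgroup.inv_mem _ (hcp m))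
      rw [Set.disjoint_left]
      rintro x ⟨h1, _⟩ ⟨_, h2⟩
      exact absurd h2 (not_le.mpr h1)
    show (G s hs (fun k => (e k)⁻¹) m * cp s hs (e m)⁻¹ m) * (G s hs e m * cp s hs (e m) m) = 1
    rw [cp_inv]
    calc G s hs (fun k => (e k)⁻¹) m * (cp s hs (e m) m)⁻¹ * (G s hs e m * cp s hs (e m) m)
        = G s hs (fun k => (e k)⁻¹) m * ((cp s hs (e m) m)⁻¹ * G s hs e m) * cp s hs (e m) m := by
          group
      _ = (G s hs (fun k => (e k)⁻¹) m * G s hs e m) * ((cp s hs (e m) m)⁻¹ * cp s hs (e m) m) := by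
          rw [← hc]; group
      _ = 1 := by rw [ih, inv_mul_cancel, one_mul]

/-- the infinite product -/
noncomputable def p (ρ : ℝ) (x : E n) : E n := G s hs e (idx s ρ x) x

include hs1 hρ in
theorem G_eq_p (hcp : ∀ k, cp s hs (e k) k ∈ fixOff (Sh n s ρ k)) (x : E n) {M : ℕ}
    (hM : idx s ρ x ≤ M) : G s hs e M x = p s hs e ρ x := by
  unfold p
  unfold idx at hM ⊢
  split_ifs at hM ⊢ with h
  · exact G_stable s hs hs1 ρ hρ e hcp hM h.choose_spec
  · push Not at h
    have h1 : ∀ m, G s hs e m x = x := fun m =>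
      G_mem s hs hs1 ρ hρ e hcp m x fun h2 => absurd (h m) (not_le.mpr h2.1)
    rw [h1, h1]

include hs1 hρ in
theorem p_inv (hcp : ∀ k, cp s hs (e k) k ∈ fixOff (Sh n s ρ k))
    (hcp' : ∀ k, cp s hs (e k)⁻¹ k ∈ fixOff (Sh n s ρ k)) (x : E n) :
    p s hs (fun k => (e k)⁻¹) ρ (p s hs e ρ x) = x := by
  set M := max (idx s ρ x) (idx s ρ (p s hs e ρ x)) with hM
  rw [← G_eq_p s hs hs1 ρ hρ (fun k => (e k)⁻¹) hcp' _ (M := M) (le_max_right _ _),
    ← G_eq_p s hs hs1 ρ hρ e hcp x (M := M) (le_max_left _ _), ← mul_apply,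
    G_inv s hs hs1 ρ hρ e hcp]
  rfl

include hs1 hρ in
theorem p_dist (hn : ∀ x : E n, ‖x‖ ≤ √(Q x))
    (hcp : ∀ k, cp s hs (e k) k ∈ fixOff (Sh n s ρ k)) (m : ℕ) (x : E n) :
    dist (p s hs e ρ x) (G s hs e m x) ≤ 2 * (s ^ m * ρ) := by
  have hr : 0 ≤ s ^ m * ρ := by positivity
  by_cases h : (s ^ m * ρ) ^ 2 < Q x
  · have h1 : G s hs e (max m (idx s ρ x)) x = G s hs e m x :=
      G_stable s hs hs1 ρ hρ e hcp (le_max_left _ _) h
    rw [← G_eq_p s hs hs1 ρ hρ e hcp x (le_max_right m _), h1, dist_self]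
    linarith
  · rw [not_lt] at h
    have h1 : G s hs e m x = x :=
      G_mem s hs hs1 ρ hρ e hcp m x fun h2 => absurd h (not_le.mpr h2.1)
    have h2 : Q (p s hs e ρ x) ≤ (s ^ m * ρ) ^ 2 := G_ball s hs hs1 ρ hρ e hcp m _ h
    have h3 : ∀ y : E n, Q y ≤ (s ^ m * ρ) ^ 2 → ‖y‖ ≤ s ^ m * ρ := by
      intro y hy
      refine (hn y).trans ?_
      rw [← Real.sqrt_sq hr]
      exact Real.sqrt_le_sqrt hy
    rw [h1, dist_eq_norm]
    refine (norm_sub_le _ _).trans ?_
    have h4 := h3 _ h2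
    have h5 := h3 _ h
    linarith

include hs1 hρ in
theorem p_cont (hn : ∀ x : E n, ‖x‖ ≤ √(Q x))
    (hcp : ∀ k, cp s hs (e k) k ∈ fixOff (Sh n s ρ k)) : Continuous (p s hs e ρ) := by
  have h1 : TendstoUniformly (fun (m : ℕ) (x : E n) => G s hs e m x) (p s hs e ρ) atTop := by
    rw [Metric.tendstoUniformly_iff]
    intro ε hε
    have h2 : Tendsto (fun m : ℕ => 2 * (s ^ m * ρ)) atTop (𝓝 0) := by
      have h3 := ((tendsto_pow_atTop_nhds_zero_of_lt_one hs.le hs1).mul_const ρ).const_mul 2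
      simpa using h3
    filter_upwards [h2.eventually_lt_const hε] with m hm x
    exact lt_of_le_of_lt (p_dist s hs hs1 ρ hρ e hn hcp m x) hm
  exact h1.continuous (Eventually.of_forall fun m => (G s hs e m).continuous).frequently

end IPH

open IPH in
open Pool.Agent.Y496.HB (fixOff mem_fixOff maps comm cp_apply cp_mem rad_anti Sh idx) in
theorem t_IPH : S_IPH := by
  intro n s ρ hs hs1 hρ e he
  obtain ⟨_, hn, hQ, _, _, _, _⟩ := Pool.Agent.Y453.HB.tri n
  have hcp : ∀ k, cp s hs (e k) k ∈ fixOff (Sh n s ρ k) := fun k =>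
    cp_mem s hs ρ (e k) hQ (fun x hx => he k x hx) k
  have hcp' : ∀ k, cp s hs (e k)⁻¹ k ∈ fixOff (Sh n s ρ k) := fun k => by
    rw [cp_inv]
    exact Subgroup.inv_mem _ (hcp k)
  have hinv : (fun k => ((e k)⁻¹)⁻¹) = e := by
    funext k
    rw [inv_inv]
  refine ⟨{
    toFun := p s hs e ρ
    invFun := p s hs (fun k => (e k)⁻¹) ρ
    left_inv := fun x => p_inv s hs hs1 ρ hρ e hcp hcp' x
    right_inv := fun x => by
      have := p_inv s hs hs1 ρ hρ (fun k => (e k)⁻¹) hcp' (fun k => by rw [inv_inv]; exact hcp k) x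
      rwa [hinv] at this
    continuous_toFun := p_cont s hs hs1 ρ hρ e hn hcp
    continuous_invFun := p_cont s hs hs1 ρ hρ _ hn hcp' }, ?_, ?_⟩
  · intro k x hx
    show p s hs e ρ (s ^ k • x) = s ^ k • e k x
    have hk : (0 : ℝ) < s ^ k := pow_pos hs k
    have hshell : ∀ y ∈ Shl n s ρ, (s ^ (k + 1) * ρ) ^ 2 < Q (s ^ k • y) ∧
        Q (s ^ k • y) ≤ (s ^ k * ρ) ^ 2 := by
      rintro y ⟨h1, h2⟩
      rw [hQ]
      have hk2 : (0 : ℝ) < (s ^ k) ^ 2 := by positivity
      refine ⟨?_, ?_⟩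
      · have := mul_lt_mul_of_pos_left h1 hk2
        refine lt_of_eq_of_lt ?_ this
        ring
      · have := mul_le_mul_of_nonneg_left h2 hk2.le
        refine this.trans_eq ?_
        ring
    have h1 := hshell x hx
    rw [← G_eq_p s hs hs1 ρ hρ e hcp (s ^ k • x) (M := max (k + 1) (idx s ρ (s ^ k • x)))
      (le_max_right _ _), G_stable s hs hs1 ρ hρ e hcp (le_max_left _ _) h1.1]
    show (G s hs e k * cp s hs (e k) k) (s ^ k • x) = _
    rw [mul_apply, cp_apply, smul_smul, inv_mul_cancel₀ hk.ne', one_smul]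
    have hmap : e k x ∈ Shl n s ρ := by
      by_contra hcon
      have h3 := he k _ hcon
      have h4 : e k x = x := (e k).injective h3
      rw [h4] at hcon
      exact hcon hx
    exact G_mem s hs hs1 ρ hρ e hcp k _ fun h2 => absurd (hshell _ hmap).2 (not_le.mpr h2.1)
  · intro x hx
    show p s hs e ρ x = x
    have hfix : ∀ m, G s hs e m x = x := by
      intro m
      induction m with
      | zero => rfl
      | succ m ih =>
        show (G s hs e m * cp s hs (e m) m) x = x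
        have h1 : x ∉ Sh n s ρ m := by
          rintro ⟨h2, h3⟩
          have hk : (0 : ℝ) < s ^ m := pow_pos hs m
          have hk2 : (0 : ℝ) < (s ^ m) ^ 2 := by positivity
          refine hx m ((s ^ m)⁻¹ • x) ⟨?_, ?_⟩ ?_
          · rw [hQ, inv_pow]
            refine lt_of_mul_lt_mul_left ?_ hk2.le
            rw [mul_inv_cancel_left₀ hk2.ne']
            refine lt_of_eq_of_lt ?_ h2
            ring
          · rw [hQ, inv_pow]
            refine le_of_mul_le_mul_left ?_ hk2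
            rw [mul_inv_cancel_left₀ hk2.ne']
            refine h3.trans_eq ?_
            ring
          · rw [smul_smul, mul_inv_cancel₀ hk.ne', one_smul]
        rw [mul_apply, (hcp m) x h1, ih]
    exact hfix _

end Pool.Agent.NH49.LR
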