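import Pool.Agent.NH49.LR.Stm
import Pool.Agent.R773.HN.Grp

/-!
# Project LR: existence of the infinite product of copies (LR-IPL)
-/

set_option autoImplicit false

open Set Filter Topology Function

namespace Pool.Agent.NH49.LR

open Pool.Agent.Y453.HB
open Pool.Agent.R773.HN

namespace IPL

variable {n : ℕ}

theorem Ap_mono {A B : Set (E n)} (h : A ⊆ B) : Ap A ⊆ Ap B := by
  rintro φ ⟨h1, u, h2, h3⟩
  exact ⟨h1.mono h, u, fun j => ⟨(h2 j).1, (h2 j).2.mono h⟩, h3⟩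

theorem Q_eq (x : E n) : Q x = nm x ^ 2 :=
  (Real.sq_sqrt (Finset.sum_nonneg fun i _ => by positivity)).symm

theorem D_sub_Shl {s t0 : ℝ} {z0 : E n} (hG : Geo n s t0 z0) :
    D z0 t0 ⊆ Shl n s (nm z0 + t0) := by
  intro y hy
  have hy' : nm (y - z0) ≤ t0 := hy
  have h0 : 0 ≤ s * (nm z0 + t0) :=
    mul_nonneg hG.s_pos.le (add_nonneg (nm_nonneg z0) hG.t_pos.le)
  have h1 : nm y ≤ nm z0 + t0 := by
    have := nm_add (y - z0) z0
    rw [sub_add_cancel] at this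
    linarith
  have h2 : nm z0 - t0 ≤ nm y := by
    have h3 := nm_add (z0 - y) y
    rw [sub_add_cancel, nm_sub_comm] at h3
    linarith
  have h4 : s * (nm z0 + t0) < nm y := hG.dis.trans_le h2
  refine ⟨?_, ?_⟩
  · rw [Q_eq]
    exact pow_lt_pow_left₀ h4 h0 two_ne_zero
  · rw [Q_eq]
    exact pow_le_pow_left₀ (nm_nonneg y) h1 2

theorem one (h1 : S_IPH) (h2 : S_IPM) (h3 : S_AP) {s t0 : ℝ} {z0 : E n} (hG : Geo n s t0 z0)
    (b : ℕ → (E n ≃ₜ E n)) (hb : ∀ k, b k ∈ HamBar n) : ∃ T : E n ≃ₜ E n, T ∈ HamBar n ∧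
    (∀ (k : ℕ) (x : E n), nm x ≤ 1 → T (s ^ k • (z0 + t0 • x)) = s ^ k • (z0 + t0 • b k x)) ∧
    (∀ y : E n, (∀ (k : ℕ) (x : E n), nm x < 1 → y ≠ s ^ k • (z0 + t0 • x)) → T y = y) := by
  have hρ : 0 < nm z0 + t0 := add_pos_of_nonneg_of_pos (nm_nonneg z0) hG.t_pos
  have hAP := fun k => h3 n z0 t0 hG.t_pos hG.in1 (b k) (hb k)
  choose φ hφ κ hκ ht he hon hoff using hAP
  have hA : ∀ k, φ k ∈ Ap (Shl n s (nm z0 + t0)) := fun k => Ap_mono (D_sub_Shl hG) (hφ k)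
  obtain ⟨T, hT1, hT2⟩ := h1 n s (nm z0 + t0) hG.s_pos hG.s_lt hρ φ fun k => (hA k).1
  refine ⟨T, h2 n s (nm z0 + t0) hG.s_pos hG.s_lt hρ hG.in1 φ hA T hT1 hT2, ?_, ?_⟩
  · intro k x hx
    have hx' : z0 + t0 • x ∈ D z0 t0 := by
      change nm (z0 + t0 • x - z0) ≤ t0
      rw [add_sub_cancel_left, nm_smul, abs_of_pos hG.t_pos]
      exact mul_le_of_le_one_right hG.t_pos.le hx
    rw [hT1 k _ (D_sub_Shl hG hx'), hon k x hx]
  · intro y hy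
    by_cases h : ∃ k : ℕ, ∃ w ∈ Shl n s (nm z0 + t0), y = s ^ k • w
    · obtain ⟨k, w, hw, rfl⟩ := h
      rw [hT1 k w hw, hoff k w]
      intro x hx hwx
      exact hy k x hx (by rw [hwx])
    · exact hT2 y fun k w hw hyw => h ⟨k, w, hw, hyw⟩

end IPL

open IPL in
theorem t_IPL (h1 : S_IPH) (h2 : S_IPM) (h3 : S_AP) : S_IPL := by
  classical
  intro n s t0 z0 hG
  have h : ∀ b : ℕ → (E n ≃ₜ E n), ∃ T : E n ≃ₜ E n, (∀ k, b k ∈ HamBar n) → T ∈ HamBar n ∧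
    (∀ (k : ℕ) (x : E n), nm x ≤ 1 → T (s ^ k • (z0 + t0 • x)) = s ^ k • (z0 + t0 • b k x)) ∧
    (∀ y : E n, (∀ (k : ℕ) (x : E n), nm x < 1 → y ≠ s ^ k • (z0 + t0 • x)) → T y = y) := by
    intro b
    by_cases hb : ∀ k, b k ∈ HamBar n
    · obtain ⟨T, hT⟩ := one h1 h2 h3 hG b hb
      exact ⟨T, fun _ => hT⟩
    · exact ⟨1, fun h => absurd h hb⟩
  choose P hP using h
  exact ⟨P, ⟨fun b hb => (hP b hb).1, fun b hb => (hP b hb).2.1, fun b hb => (hP b hb).2.2⟩⟩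

end Pool.Agent.NH49.LR
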