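import Pool.Agent.NH49.LR.Stm
import Pool.Agent.R773.HN.Grp
import Pool.Agent.Y419.HB.Dil

/-!
# Project LR: infinite products of homeomorphisms in shells are Hamiltonian homeomorphisms
-/

set_option autoImplicit false

open Set Filter Topology Function
open scoped commutatorElement

namespace Pool.Agent.NH49.LR

open Pool.Agent.Y453.HB
open Pool.Agent.R773.HN

namespace IPM

variable {n : ℕ}

/-- the copy of `u` -/
noncomputable def cq (s : ℝ) (hs : 0 < s) (u : E n ≃ₜ E n) (k : ℕ) : E n ≃ₜ E n :=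
  dil (s ^ k) (pow_pos hs k) * u * (dil (s ^ k) (pow_pos hs k))⁻¹

/-- the finite products -/
noncomputable def W (s : ℝ) (hs : 0 < s) (u : ℕ → (E n ≃ₜ E n)) : ℕ → (E n ≃ₜ E n)
  | 0 => 1
  | m + 1 => W s hs u m * cq s hs (u m) m

/-- the `k`-th shell -/
def InS (n : ℕ) (s ρ : ℝ) (k : ℕ) (x : E n) : Prop := ∃ y ∈ Shl n s ρ, x = s ^ k • y

theorem cq_apply {s : ℝ} (hs : 0 < s) (u : E n ≃ₜ E n) (k : ℕ) (y : E n) :
    cq s hs u k (s ^ k • y) = s ^ k • u y := by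
  unfold cq
  rw [mul_apply, mul_apply, dil_inv_apply, dil_apply, smul_smul,
    inv_mul_cancel₀ (pow_pos hs k).ne', one_smul]

theorem cq_fix {s ρ : ℝ} (hs : 0 < s) {u : E n ≃ₜ E n} (hu : Supp (Shl n s ρ) u) {k : ℕ} {x : E n}
    (hx : ¬ InS n s ρ k x) : cq s hs u k x = x := by
  have hp := (pow_pos hs k).ne'
  have e : x = s ^ k • ((s ^ k)⁻¹ • x) := by rw [smul_smul, mul_inv_cancel₀ hp, one_smul]
  have h1 : (s ^ k)⁻¹ • x ∉ Shl n s ρ := fun h => hx ⟨_, h, e⟩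
  have h2 := cq_apply hs u k ((s ^ k)⁻¹ • x)
  rw [hu _ h1, ← e] at h2
  exact h2

theorem disj {s ρ : ℝ} (hs : 0 < s) (hs1 : s < 1) (hρ : 0 < ρ) {k j : ℕ} (h : k < j) {x : E n}
    (hx : InS n s ρ k x) : ¬ InS n s ρ j x := by
  rintro ⟨z, hz, hxz⟩
  obtain ⟨y, hy, hxy⟩ := hx
  have h1 : Q x = (s ^ k) ^ 2 * Q y := by rw [hxy, Q_smul]
  have h2 : Q x = (s ^ j) ^ 2 * Q z := by rw [hxz, Q_smul]
  have h3 : (s ^ k) ^ 2 * (s * ρ) ^ 2 < Q x := by
    rw [h1]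
    exact mul_lt_mul_of_pos_left hy.1 (by positivity)
  have h4 : Q x ≤ (s ^ j) ^ 2 * ρ ^ 2 := by
    rw [h2]
    exact mul_le_mul_of_nonneg_left hz.2 (by positivity)
  have h5 : s ^ j ≤ s ^ (k + 1) := pow_le_pow_of_le_one hs.le hs1.le h
  have h6 : (s ^ j) ^ 2 ≤ (s ^ (k + 1)) ^ 2 := pow_le_pow_left₀ (pow_pos hs j).le h5 2
  have h7 : (s ^ j) ^ 2 * ρ ^ 2 ≤ (s ^ (k + 1)) ^ 2 * ρ ^ 2 :=
    mul_le_mul_of_nonneg_right h6 (by positivity)
  have h8 : (s ^ (k + 1)) ^ 2 * ρ ^ 2 = (s ^ k) ^ 2 * (s * ρ) ^ 2 := by ring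
  linarith

theorem disj' {s ρ : ℝ} (hs : 0 < s) (hs1 : s < 1) (hρ : 0 < ρ) {k j : ℕ} (h : k ≠ j) {x : E n}
    (hx : InS n s ρ k x) : ¬ InS n s ρ j x := by
  rcases lt_or_gt_of_ne h with h | h
  · exact disj hs hs1 hρ h hx
  · exact fun hj => disj hs hs1 hρ h hj hx

theorem W_fix {s ρ : ℝ} (hs : 0 < s) {u : ℕ → (E n ≃ₜ E n)} (hu : ∀ k, Supp (Shl n s ρ) (u k))
    (m : ℕ) {x : E n} (hx : ∀ k < m, ¬ InS n s ρ k x) : W s hs u m x = x := by
  induction m with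
  | zero => rfl
  | succ m ih =>
    change (W s hs u m * cq s hs (u m) m) x = x
    rw [mul_apply, cq_fix hs (hu m) (hx m (Nat.lt_succ_self m))]
    exact ih fun k hk => hx k (hk.trans (Nat.lt_succ_self m))

theorem W_apply {s ρ : ℝ} (hs : 0 < s) (hs1 : s < 1) (hρ : 0 < ρ) {u : ℕ → (E n ≃ₜ E n)}
    (hu : ∀ k, Supp (Shl n s ρ) (u k)) (m : ℕ) {k : ℕ} (hk : k < m) {y : E n}
    (hy : y ∈ Shl n s ρ) : W s hs u m (s ^ k • y) = s ^ k • u k y := by
  induction m with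
  | zero => omega
  | succ m ih =>
    change (W s hs u m * cq s hs (u m) m) _ = _
    rw [mul_apply]
    by_cases hkm : k = m
    · subst hkm
      rw [cq_apply]
      refine W_fix hs hu k fun j hj => ?_
      exact disj' hs hs1 hρ (by omega) ⟨u k y, (hu k).maps hy, rfl⟩
    · have h1 : InS n s ρ k (s ^ k • y) := ⟨y, hy, rfl⟩
      rw [cq_fix hs (hu m) (disj' hs hs1 hρ hkm h1)]
      exact ih (by omega)

theorem W_ham {s : ℝ} (hs : 0 < s) (hs1 : s < 1) {u : ℕ → (E n ≃ₜ E n)} (hu : ∀ k, IsHam (u k))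
    (m : ℕ) : IsHam (W s hs u m) := by
  induction m with
  | zero => exact (Pool.Agent.Y510.HB.inv n).1
  | succ m ih =>
    exact Pool.Agent.Y907.HB.mul n _ _ ih (Pool.Agent.Y419.HB.dil_ham n _ (pow_pos hs m)
      (pow_le_one₀ hs.le hs1.le) _ (hu m))

theorem ins_Q {s ρ : ℝ} (hs : 0 < s) (hs1 : s < 1) {k : ℕ} {x : E n}
    (hx : InS n s ρ k x) : Q x ≤ ρ ^ 2 := by
  obtain ⟨y, hy, rfl⟩ := hx
  rw [Q_smul]
  have h1 : (s ^ k) ^ 2 ≤ 1 := pow_le_one₀ (by positivity) (pow_le_one₀ hs.le hs1.le)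
  have h2 := Q_nonneg y
  nlinarith [hy.2]

theorem norm_le_of {s ρ : ℝ} (hs : 0 < s) (hs1 : s < 1) (hρ : 0 < ρ) {m k : ℕ} (h : m ≤ k)
    {y : E n} (hy : y ∈ Shl n s ρ) : ‖s ^ k • y‖ ≤ s ^ m * ρ := by
  refine (norm_le _).trans ?_
  have h1 : √(Q y) ≤ ρ := by
    rw [Real.sqrt_le_left hρ.le]
    exact hy.2
  rw [Q_smul, Real.sqrt_mul (sq_nonneg _), Real.sqrt_sq (pow_pos hs k).le]
  have h2 : s ^ k ≤ s ^ m := pow_le_pow_of_le_one hs.le hs1.le h
  exact mul_le_mul h2 h1 (Real.sqrt_nonneg _) (pow_pos hs m).le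

end IPM

open IPM in
theorem t_IPM : S_IPM := by
  intro n s ρ hs hs1 hρ hρ1 e he T hT1 hT2
  have hU := Pool.Agent.Y309.HB.uc
  have key : ∀ m k : ℕ, ∃ u : E n ≃ₜ E n, IsHam u ∧ Supp (Shl n s ρ) u ∧
      ∀ x, dist (e k x) (u x) < 1 / ((m : ℝ) + 1) := by
    intro m k
    obtain ⟨-, u, hu1, hu2⟩ := he k
    obtain ⟨j, hj⟩ := (Metric.tendstoUniformly_iff.1 hu2 (1 / ((m : ℝ) + 1)) (by positivity)).exists
    exact ⟨u j, (hu1 j).1, (hu1 j).2, hj⟩
  choose u hu1 hu2 hu3 using key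
  have hd : ∀ (m : ℕ) (x : E n), dist (T x) (W s hs (u m) m x) ≤
      2 * (s ^ m * ρ) + 1 / ((m : ℝ) + 1) := by
    intro m x
    have hpos : 0 < 1 / ((m : ℝ) + 1) := by positivity
    have hpos2 : 0 < s ^ m * ρ := by positivity
    by_cases hx : ∃ k, InS n s ρ k x
    · obtain ⟨k, y, hy, rfl⟩ := hx
      rw [hT1 k y hy]
      rcases lt_or_ge k m with hk | hk
      · rw [W_apply hs hs1 hρ (hu2 m) m hk hy, dist_eq_norm, ← smul_sub, norm_smul,
          Real.norm_eq_abs, abs_of_pos (pow_pos hs k), ← dist_eq_norm]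
        have h1 : s ^ k ≤ 1 := pow_le_one₀ hs.le hs1.le
        have h2 := hu3 m k y
        have h3 : s ^ k * dist (e k y) (u m k y) ≤ 1 * dist (e k y) (u m k y) :=
          mul_le_mul_of_nonneg_right h1 dist_nonneg
        linarith
      · rw [W_fix hs (hu2 m) m fun j hj => disj' hs hs1 hρ (by omega) ⟨y, hy, rfl⟩]
        have h1 := norm_le_of hs hs1 hρ hk hy
        have h2 := norm_le_of hs hs1 hρ hk ((he k).1.maps hy)
        have h3 := norm_sub_le (s ^ k • e k y) (s ^ k • y)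
        rw [dist_eq_norm]
        linarith
    · push Not at hx
      have h1 : T x = x := hT2 x fun k y hy h => hx k ⟨y, hy, h⟩
      rw [h1, W_fix hs (hu2 m) m fun j _ => hx j, dist_self]
      linarith
  have hmem : T ∈ hamBar n := by
    refine ⟨{x | Q x ≤ ρ ^ 2}, Q_compact _, fun x hx => ?_, fun x hx => ?_,
      fun m => W s hs (u m) m, fun m x hx => ?_, fun m => W_ham hs hs1 (hu1 m) m, ?_⟩
    · have : Q x ≤ ρ ^ 2 := hx
      change Q x < 1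
      nlinarith
    · refine hT2 x fun k y hy h => hx ?_
      exact ins_Q hs hs1 ⟨y, hy, h⟩
    · exact W_fix hs (hu2 m) m fun k _ h => hx (ins_Q hs hs1 h)
    · rw [Metric.tendstoUniformly_iff]
      intro ε hε
      have h1 : Tendsto (fun m : ℕ => 2 * (s ^ m * ρ) + 1 / ((m : ℝ) + 1)) atTop (𝓝 0) := by
        have h2 := tendsto_pow_atTop_nhds_zero_of_lt_one hs.le hs1
        have h3 := ((h2.mul_const ρ).const_mul 2).add
          (tendsto_one_div_add_atTop_nhds_zero_nat (𝕜 := ℝ))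
        simpa using h3
      filter_upwards [h1.eventually (gt_mem_nhds hε)] with m hm x
      exact (hd m x).trans_lt hm
  exact Subgroup.subset_closure hmem

end Pool.Agent.NH49.LR
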