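import Pool.Agent.NH49.LR.Stm
import Pool.Agent.R773.HN.Fin

/-!
Project LR: infinitely many translations (helper87).
-/

set_option autoImplicit false

open Set Filter Topology Function

namespace Pool.Agent.NH49.LR

open Pool.Agent.Y453.HB
open Pool.Agent.R773.HN

namespace Kap

theorem Q_eq_nm_sq {n : ℕ} (x : E n) : Q x = nm x ^ 2 := by
  unfold nm
  rw [Real.sq_sqrt]
  unfold Q
  positivity

theorem mem_Shl {n : ℕ} (x : E n) (h1 : (1 / 4 : ℝ) * (113 / 200) < nm x)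
    (h2 : nm x ≤ 113 / 200) : x ∈ Shl n (1 / 4) (113 / 200) := by
  change ((1 / 4 : ℝ) * (113 / 200)) ^ 2 < Q x ∧ Q x ≤ (113 / 200 : ℝ) ^ 2
  rw [Q_eq_nm_sq]
  constructor
  · exact pow_lt_pow_left₀ h1 (by norm_num) (by norm_num)
  · exact pow_le_pow_left₀ (nm_nonneg x) h2 2

end Kap

open Kap in
theorem t_KAP (h1 : S_IPH) (h2 : S_IPM) : S_KAP := by
  intro n z0 hz0
  have hc : nm ((3 / 4 : ℝ) • z0) = 3 / 8 := by
    rw [nm_smul, hz0, abs_of_pos (by norm_num)]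
    norm_num
  have e1 : z0 - (3 / 4 : ℝ) • z0 = (1 / 4 : ℝ) • z0 := by module
  have e2 : z0 + (-(1 / 2 : ℝ)) • z0 - (3 / 4 : ℝ) • z0 = (-(1 / 4 : ℝ)) • z0 := by module
  obtain ⟨κ0, hκ, hS, hκx⟩ := hT n ((3 / 4 : ℝ) • z0) z0 ((-(1 / 2 : ℝ)) • z0) (1 / 16) (19 / 100)
    (by norm_num) (by rw [hc]; norm_num)
    (by rw [e1, nm_smul, hz0, abs_of_pos (by norm_num)]; norm_num)
    (by rw [e2, nm_smul, hz0, abs_neg, abs_of_pos (by norm_num)]; norm_num)
  have hD : D ((3 / 4 : ℝ) • z0) (19 / 100) ⊆ Shl n (1 / 4) (113 / 200) := by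
    intro x hx
    have hx' : nm (x - (3 / 4 : ℝ) • z0) ≤ 19 / 100 := hx
    have h3 := nm_add (x - (3 / 4 : ℝ) • z0) ((3 / 4 : ℝ) • z0)
    rw [sub_add_cancel] at h3
    have h4 := nm_add ((3 / 4 : ℝ) • z0 - x) x
    rw [sub_add_cancel, nm_sub_comm] at h4
    rw [hc] at h3 h4
    exact mem_Shl x (by linarith) (by linarith)
  obtain ⟨T, hT1, hT2⟩ := h1 n (1 / 4) (113 / 200) (by norm_num) (by norm_num) (by norm_num)
    (fun _ => κ0) (fun _ => hS.mono hD)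
  refine ⟨T, h2 n (1 / 4) (113 / 200) (by norm_num) (by norm_num) (by norm_num) (by norm_num)
    (fun _ => κ0) (fun _ => ⟨hS.mono hD, fun _ => κ0, fun _ => ⟨hκ, hS.mono hD⟩, ?_⟩) T hT1 hT2, ?_⟩
  · intro u hu
    exact Filter.Eventually.of_forall fun _ x => refl_mem_uniformity hu
  · intro j x hx
    have hx' : nm (x - z0) ≤ 1 / 16 := hx
    have h3 := nm_add (x - z0) z0
    rw [sub_add_cancel] at h3
    have h4 := nm_add (z0 - x) x
    rw [sub_add_cancel, nm_sub_comm] at h4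
    rw [hz0] at h3 h4
    rw [hT1 j x (mem_Shl x (by linarith) (by linarith)), hκx x hx]
    congr 1
    module

end Pool.Agent.NH49.LR
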