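import Pool.Agent.NH49.LR.Stm

/-!
# LR-LER: bounded fragmentation gives bounded commutator length
-/

set_option autoImplicit false

open Set Filter Topology Function
open scoped commutatorElement

namespace Pool.Agent.NH49.LR

open Pool.Agent.Y453.HB
open Pool.Agent.R773.HN

namespace LER

variable {n : ℕ}

theorem undo (s : ℝ) (hs : 0 < s) (a : E n ≃ₜ E n) :
    dil s hs * ((dil s hs)⁻¹ * a * dil s hs) * (dil s hs)⁻¹ = a := by
  group

theorem dil_congr {s s' : ℝ} (h : s = s') (hs : 0 < s) (hs' : 0 < s') :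
    (dil s hs : E n ≃ₜ E n) = dil s' hs' := by
  subst h
  rfl

theorem exists_z (hn : 0 < n) : ∃ z0 : E n, nm z0 = 1 / 2 := by
  refine ⟨(Pi.single ⟨0, hn⟩ (1 / 2), 0), ?_⟩
  have h : Q ((Pi.single ⟨0, hn⟩ (1 / 2), 0) : E n) = (1 / 2) ^ 2 := by
    unfold Q
    rw [Finset.sum_eq_single ⟨0, hn⟩]
    · simp
    · intro i _ hi
      simp [Pi.single_eq_of_ne hi]
    · intro h
      exact absurd (Finset.mem_univ _) h
  rw [nm, h, Real.sqrt_sq (by norm_num)]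

end LER

open LER

set_option linter.unusedVariables false in
theorem t_LER (hB : S_BL) (hW : S_WC) (hC : S_CM) (hL : S_IPL) (hM : S_PIM) (hS : S_PIS)
    (hP : S_PIC) (hF : S_SHF) : S_LER := by
  intro n hn ρ m hρ hρ1 hf g hg
  obtain ⟨b1, b2, b3, b4, b5, b6, b7, b8⟩ := hB n
  obtain ⟨cmul, cconj, cdil, cdec⟩ := hC n 1 one_pos
  obtain ⟨z0, hz0⟩ := exists_z hn
  have hgeo : Geo n (1 / 2) (1 / 8) z0 := by
    refine ⟨by norm_num, by norm_num, by norm_num, ?_, ?_⟩ <;> rw [hz0] <;> norm_num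
  obtain ⟨P, hIP⟩ := hL n (1 / 2) (1 / 8) z0 hgeo
  have h2 : (0 : ℝ) < 1 / 2 := by norm_num
  have h8 : (0 : ℝ) < 1 / 8 := by norm_num
  have step : ∀ c : {c : E n ≃ₜ E n // c ∈ Bl n ρ}, ∃ C : E n ≃ₜ E n,
      ∃ c' : {c : E n ≃ₜ E n // c ∈ Bl n ρ}, C ∈ Cm n 1 m ∧
        (c : E n ≃ₜ E n) = C * (dil (1 / 2) h2 * (c' : E n ≃ₜ E n) * (dil (1 / 2) h2)⁻¹) := by
    intro c
    obtain ⟨C, hC1, g', hg', e⟩ := cdec (ρ / 2) (by positivity) (by linarith) m c (hf c c.2)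
    have e1 : ρ / 2 = 1 / 2 * ρ := by ring
    rw [e1] at hg'
    exact ⟨C, ⟨_, b7 ρ (1 / 2) h2 g' hg'⟩, hC1, by rw [e, undo]⟩
  choose C c' hC1 hc' using step
  have e8 : ρ / 8 = 1 / 8 * ρ := by ring
  rw [e8] at hg
  obtain ⟨sq, sq0, sqs⟩ : ∃ sq : ℕ → {c : E n ≃ₜ E n // c ∈ Bl n ρ},
      sq 0 = ⟨_, b7 ρ (1 / 8) h8 g hg⟩ ∧ ∀ k, sq (k + 1) = c' (sq k) :=
    ⟨fun k => Nat.rec ⟨_, b7 ρ (1 / 8) h8 g hg⟩ (fun _ x => c' x) k, rfl, fun k => rfl⟩
  have hsub : ∀ x ∈ Bl n ρ, x ∈ HamBar n := by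
    intro x hx
    have := b5 ρ 1 hρ1 hx
    rw [b1] at this
    exact this
  have hsubC : ∀ (j : ℕ), ∀ x ∈ Cm n 1 j, x ∈ HamBar n := by
    intro j
    induction j with
    | zero =>
      intro x hx
      rw [show x = 1 from hx]
      exact (HamBar n).one_mem
    | succ j ih =>
      rintro φ ⟨x, hx, y, hy, c, hc, rfl⟩
      rw [b1] at hx hy
      have hx : x ∈ HamBar n := hx
      have hy : y ∈ HamBar n := hy
      refine (HamBar n).mul_mem ?_ (ih c hc)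
      rw [commutatorElement_def]
      exact (HamBar n).mul_mem ((HamBar n).mul_mem ((HamBar n).mul_mem hx hy)
        ((HamBar n).inv_mem hx)) ((HamBar n).inv_mem hy)
  set d : ℕ → (E n ≃ₜ E n) := fun k => (sq (k + 1) : E n ≃ₜ E n) with hd
  set b : ℕ → (E n ≃ₜ E n) := fun k => dil (1 / 2) h2 * d k * (dil (1 / 2) h2)⁻¹ with hb
  obtain ⟨b', hb0, hbs⟩ : ∃ b' : ℕ → (E n ≃ₜ E n), b' 0 = 1 ∧ ∀ k, b' (k + 1) = d k :=
    ⟨fun k => Nat.casesOn k 1 d, rfl, fun k => rfl⟩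
  obtain ⟨e, he0, hes⟩ : ∃ e : ℕ → (E n ≃ₜ E n), e 0 = sq 0 ∧ ∀ k, e (k + 1) = 1 :=
    ⟨fun k => Nat.casesOn k (sq 0 : E n ≃ₜ E n) (fun _ => 1), rfl, fun k => rfl⟩
  have hdm : ∀ k, d k ∈ HamBar n := fun k => hsub _ (sq (k + 1)).2
  have hbm : ∀ k, b k ∈ HamBar n := by
    intro k
    have h := b6 1 (1 / 2) h2 (d k) (b5 ρ 1 hρ1 (sq (k + 1)).2)
    have h3 := b5 (1 / 2 * 1) 1 (by norm_num) h
    rw [b1] at h3
    exact h3
  have hb'm : ∀ k, b' k ∈ HamBar n := by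
    intro k
    cases k with
    | zero => rw [hb0]; exact (HamBar n).one_mem
    | succ k => rw [hbs]; exact hdm k
  have hem : ∀ k, e k ∈ HamBar n := by
    intro k
    cases k with
    | zero => rw [he0]; exact hsub _ (sq 0).2
    | succ k => rw [hes]; exact (HamBar n).one_mem
  have hCm : ∀ k, C (sq k) ∈ HamBar n := fun k => hsubC m _ (hC1 _)
  have q1 : (fun k => (sq k : E n ≃ₜ E n)) = fun k => C (sq k) * b k := by
    funext k
    rw [hb, hd]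
    simp only
    rw [sqs k]
    exact hc' (sq k)
  have q2 : (fun k => (sq k : E n ≃ₜ E n)) = fun k => e k * b' k := by
    funext k
    cases k with
    | zero => rw [he0, hb0, mul_one]
    | succ k => rw [hes, hbs, one_mul]
  have r1 := hM n _ _ z0 hgeo P hIP (fun k => C (sq k)) b hCm hbm
  have r2 := hM n _ _ z0 hgeo P hIP e b' hem hb'm
  rw [← q1] at r1
  rw [← q2, r1] at r2
  obtain ⟨w, hw, r3⟩ := hF n z0 hz0 P hIP h2 d hdm b b' (fun k => rfl) hb0 hbs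
  rw [r3, ← mul_assoc] at r2
  have r4 := mul_right_cancel r2
  have hPe : P e ∈ Cm n 1 (m + 2) := by
    rw [← r4]
    exact cmul m 2 _ (hP n _ _ z0 hgeo P hIP m _ (fun k => hC1 _)) _ hw
  obtain ⟨κ, hκ, h3, r5⟩ := hS n _ _ z0 hgeo P hIP e hem 0 (fun k hk => by
    cases k with
    | zero => exact absurd rfl hk
    | succ k => exact hes k)
  rw [he0, sq0, dil_congr (by norm_num : (1 / 2 : ℝ) ^ 0 * (1 / 8) = 1 / 8) h3 h8] at r5
  simp only at r5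
  rw [undo] at r5
  have hκ1 : κ⁻¹ ∈ Bl n 1 := by
    rw [b1]
    exact (HamBar n).inv_mem hκ
  have r6 := cconj (m + 2) _ hPe κ⁻¹ hκ1
  rw [r5] at r6
  have e6 : κ⁻¹ * (κ * g * κ⁻¹) * κ⁻¹⁻¹ = g := by group
  rw [e6] at r6
  exact r6

end Pool.Agent.NH49.LR
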