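import Pool.Agent.NH49.LR.Stm

/-!
# LR-LER2: consequences of the bound for the commutator length
-/

set_option autoImplicit false

open Set Filter Topology Function
open scoped commutatorElement

namespace Pool.Agent.NH49.LR

open Pool.Agent.Y453.HB
open Pool.Agent.R773.HN

namespace LER2

variable {n : ℕ}

theorem Wc_mono {t t' r : ℝ} (h : Bl n t ⊆ Bl n t') (m : ℕ) : Wc n t r m ⊆ Wc n t' r m := by
  induction m with
  | zero => exact fun _ h => h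
  | succ m ih =>
    rintro φ ⟨a, ha, b, hb, w, hw, rfl⟩
    exact ⟨a, h ha, b, hb, w, ih hw, rfl⟩

theorem Cm_sub {t : ℝ} (S : Subgroup (E n ≃ₜ E n))
    (h : ∀ f ∈ Bl n t, ∀ g ∈ Bl n t, ⁅f, g⁆ ∈ S) (m : ℕ) : ∀ g ∈ Cm n t m, g ∈ S := by
  induction m with
  | zero =>
    intro g hg
    rw [show g = 1 from hg]
    exact S.one_mem
  | succ m ih =>
    rintro φ ⟨x, hx, y, hy, c, hc, rfl⟩
    exact S.mul_mem (h x hx y hy) (ih c hc)

theorem Wc_sub {t r : ℝ} (S : Subgroup (E n ≃ₜ E n))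
    (h : ∀ f ∈ Bl n t, ∀ x ∈ S, f * x * f⁻¹ ∈ S) (hr : ∀ g ∈ Bl n r, g ∈ S) (m : ℕ) :
    ∀ g ∈ Wc n t r m, g ∈ S := by
  induction m with
  | zero =>
    intro g hg
    rw [show g = 1 from hg]
    exact S.one_mem
  | succ m ih =>
    rintro φ ⟨a, ha, b, hb, w, hw, rfl⟩
    exact S.mul_mem (h a ha b (hr b hb)) (ih w hw)

theorem undo (s : ℝ) (hs : 0 < s) (a : E n ≃ₜ E n) :
    dil s hs * ((dil s hs)⁻¹ * a * dil s hs) * (dil s hs)⁻¹ = a := by
  group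

end LER2

open LER2

theorem t_LER2 (hB : S_BL) (hW : S_WC) (hC : S_CM) (h : S_LER) : S_LER2 := by
  intro n hn ρ m hρ hρ1 hf
  obtain ⟨b1, b2, b3, b4, b5, b6, b7, b8⟩ := hB n
  have p1 : ∀ g ∈ Bl n (ρ / 800), g ∈ Cm n (1 / 100) (m + 2) := by
    intro g hg
    have hs : (0 : ℝ) < 1 / 100 := by norm_num
    have e : ρ / 800 = (1 / 100) * (ρ / 8) := by ring
    rw [e] at hg
    have h1 := h n hn ρ m hρ hρ1 hf _ (b7 (ρ / 8) (1 / 100) hs g hg)
    have h2 := (hC n 1 one_pos).2.2.1 (m + 2) (1 / 100) hs _ h1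
    rw [undo, mul_one] at h2
    exact h2
  have p2 : ∀ t : ℝ, 0 < t → t ≤ 1 → ∀ g ∈ Bl n (t * ρ), g ∈ Wc n 1 (t * ρ / 2) m := by
    intro t ht ht1 g hg
    have h1 := hf _ (b7 ρ t ht g hg)
    have h2 := (hW n 1 (ρ / 2) one_pos (by positivity)).2.2.2.2.2.2 m t ht _ h1
    rw [undo, mul_one, ← mul_div_assoc] at h2
    exact Wc_mono (b5 t 1 ht1) m h2
  refine ⟨p1, p2, ?_⟩
  intro S hS hcm
  have hconj : ∀ f ∈ Bl n 1, ∀ x ∈ S, f * x * f⁻¹ ∈ S := by
    intro f hf x hx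
    rw [b1] at hf
    exact hS f hf x hx
  have key : ∀ j : ℕ, j ≤ 10 → ∀ g ∈ Bl n (2 ^ j * (ρ / 1024)), g ∈ S := by
    intro j
    induction j with
    | zero =>
      intro _ g hg
      refine Cm_sub S hcm (m + 2) g (p1 g (b5 _ _ ?_ hg))
      rw [pow_zero, one_mul]
      linarith
    | succ j ih =>
      intro hj g hg
      have ht : (0 : ℝ) < 2 ^ (j + 1) / 1024 := by positivity
      have ht1 : (2 : ℝ) ^ (j + 1) / 1024 ≤ 1 := by
        have : (2 : ℝ) ^ (j + 1) ≤ 2 ^ 10 := pow_le_pow_right₀ (by norm_num) hj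
        norm_num at this ⊢
        linarith
      have e : (2 : ℝ) ^ (j + 1) * (ρ / 1024) = 2 ^ (j + 1) / 1024 * ρ := by ring
      rw [e] at hg
      refine Wc_sub S hconj ?_ m g (p2 _ ht ht1 g hg)
      have e2 : (2 : ℝ) ^ (j + 1) / 1024 * ρ / 2 = 2 ^ j * (ρ / 1024) := by
        rw [pow_succ]; ring
      rw [e2]
      exact ih (by omega)
  intro g hg
  refine key 10 le_rfl g ?_
  have e : (2 : ℝ) ^ 10 * (ρ / 1024) = ρ := by norm_num; ring
  rw [e]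
  exact hg

end Pool.Agent.NH49.LR
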