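import Pool.Agent.NH49.LR.Stm

/-!
# LR-NCL and LR-REC: elements of the normal closure, and a recursion
-/

set_option autoImplicit false

open Set Filter Topology Function
open scoped commutatorElement

namespace Pool.Agent.NH49.LR

open Pool.Agent.Y453.HB
open Pool.Agent.R773.HN

/-- **LR-NCL** -/
theorem t_NCL (hB : S_BL) (hW : S_WC) : S_NCL := by
  intro n Z g hg
  unfold ncl at hg
  induction hg using Subgroup.closure_induction with
  | mem x hx =>
    obtain ⟨h, hh, j, rfl⟩ := hx
    refine ⟨j + 1, fun r hr H hH => ?_⟩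
    obtain ⟨-, hmono, -, -, hconj, -, -⟩ := hW n 1 r one_pos hr
    have hh1 : h ∈ Bl n 1 := by
      rw [(hB n).1]
      exact hh
    refine hmono H _ ?_ (hconj H (Z j) (hH j (Nat.le_succ j)) h hh1)
    exact Nat.le_mul_of_pos_left _ (Nat.succ_pos j)
  | one =>
    refine ⟨0, fun r hr H _ => ?_⟩
    exact (hW n 1 r one_pos hr).1 _
  | mul x y _ _ hx hy =>
    obtain ⟨N1, h1⟩ := hx
    obtain ⟨N2, h2⟩ := hy
    refine ⟨N1 + N2, fun r hr H hH => ?_⟩
    obtain ⟨-, -, hmul, -, -, -, -⟩ := hW n 1 r one_pos hr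
    rw [Nat.add_mul]
    exact hmul _ _ x (h1 r hr H fun j hj => hH j (by omega)) y
      (h2 r hr H fun j hj => hH j (by omega))
  | inv x _ hx =>
    obtain ⟨N, h1⟩ := hx
    refine ⟨N, fun r hr H hH => ?_⟩
    obtain ⟨-, -, -, hinv, -, -, -⟩ := hW n 1 r one_pos hr
    exact hinv _ x (h1 r hr H hH)

/-- **LR-REC** -/
theorem t_REC : S_REC := by
  intro α d R hR
  choose F hF using hR
  let G : (k : ℕ) → ((i : ℕ) → i < k → α) → α :=
    fun k ih => F k (fun i => if h : i < k then ih i h else d)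
  let b : ℕ → α := fun k => Nat.lt_wfRel.wf.fix (C := fun _ => α) G k
  have hb : ∀ k, b k = F k (fun i => if i < k then b i else d) := by
    intro k
    have e : b k = G k (fun i _ => b i) := Nat.lt_wfRel.wf.fix_eq (C := fun _ => α) G k
    rw [e]
    show F k (fun i => if _h : i < k then b i else d) = _
    rfl
  refine ⟨b, fun k => ?_⟩
  have h1 := hF k (fun i => if i < k then b i else d)
  rw [← hb k] at h1
  exact h1

end Pool.Agent.NH49.LR
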