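import Pool.Agent.NH49.LR.Stm

/-!
# LR-PIC: infinite products of products of commutators
-/

set_option autoImplicit false

open Set Filter Topology Function
open scoped commutatorElement

namespace Pool.Agent.NH49.LR

open Pool.Agent.Y453.HB
open Pool.Agent.R773.HN

theorem t_PIC (hB : S_BL) (hP : S_PIM) : S_PIC := by
  intro n s t0 z0 hG P hPi
  obtain ⟨hB1, hone, hmul, hinv, -⟩ := hB n
  have hmem1 : ∀ a : E n ≃ₜ E n, a ∈ Bl n 1 ↔ a ∈ (HamBar n : Set (E n ≃ₜ E n)) := by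
    intro a
    rw [hB1]
  -- the products of commutators are in `Bl n 1`
  have hsub : ∀ (m : ℕ), ∀ a ∈ Cm n 1 m, a ∈ Bl n 1 := by
    intro m
    induction m with
    | zero =>
      rintro a rfl
      exact hone 1 one_pos
    | succ m ih =>
      rintro a ⟨x, hx, y, hy, c, hc, rfl⟩
      refine hmul 1 _ ?_ _ (ih c hc)
      rw [commutatorElement_def]
      exact hmul 1 _ (hmul 1 _ (hmul 1 _ hx _ hy) _ (hinv 1 _ hx)) _ (hinv 1 _ hy)
  have hsubH : ∀ (m : ℕ), ∀ a ∈ Cm n 1 m, a ∈ HamBar n := fun m a ha =>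
    (hmem1 a).1 (hsub m a ha)
  have hmulP := hP n s t0 z0 hG P hPi
  -- `P 1 = 1`
  have h1H : (1 : E n ≃ₜ E n) ∈ HamBar n := (hmem1 1).1 (hone 1 one_pos)
  have hP1 : P (fun _ => 1) = 1 := by
    have h := hmulP (fun _ => 1) (fun _ => 1) (fun _ => h1H) (fun _ => h1H)
    simp only [mul_one] at h
    exact mul_eq_left.1 h.symm
  have hPinv : ∀ b : ℕ → (E n ≃ₜ E n), (∀ k, b k ∈ HamBar n) →
      P (fun k => (b k)⁻¹) = (P b)⁻¹ := by
    intro b hb
    have hb' : ∀ k, (b k)⁻¹ ∈ HamBar n := fun k => (hmem1 _).1 (hinv 1 _ ((hmem1 _).2 (hb k)))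
    have h := hmulP (fun k => (b k)⁻¹) b hb' hb
    simp only [inv_mul_cancel] at h
    rw [hP1] at h
    exact eq_inv_of_mul_eq_one_left h.symm
  intro m
  induction m with
  | zero =>
    intro c hc
    have hc1 : c = fun _ => 1 := by
      funext k
      exact hc k
    rw [hc1, hP1]
    rfl
  | succ m ih =>
    intro c hc
    choose x hx y hy c' hc' he using hc
    have hxH : ∀ k, x k ∈ HamBar n := fun k => (hmem1 _).1 (hx k)
    have hyH : ∀ k, y k ∈ HamBar n := fun k => (hmem1 _).1 (hy k)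
    have hxi : ∀ k, (x k)⁻¹ ∈ HamBar n := fun k => (hmem1 _).1 (hinv 1 _ (hx k))
    have hyi : ∀ k, (y k)⁻¹ ∈ HamBar n := fun k => (hmem1 _).1 (hinv 1 _ (hy k))
    have hxy : ∀ k, x k * y k ∈ HamBar n := fun k => (hmem1 _).1 (hmul 1 _ (hx k) _ (hy k))
    have hxyx : ∀ k, x k * y k * (x k)⁻¹ ∈ HamBar n := fun k =>
      (hmem1 _).1 (hmul 1 _ (hmul 1 _ (hx k) _ (hy k)) _ (hinv 1 _ (hx k)))
    have hcm : ∀ k, ⁅x k, y k⁆ ∈ HamBar n := fun k => by
      rw [commutatorElement_def]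
      exact (hmem1 _).1 (hmul 1 _ (hmul 1 _ (hmul 1 _ (hx k) _ (hy k)) _ (hinv 1 _ (hx k))) _
        (hinv 1 _ (hy k)))
    have e0 : c = fun k => ⁅x k, y k⁆ * c' k := funext he
    rw [e0, hmulP (fun k => ⁅x k, y k⁆) c' hcm fun k => hsubH m _ (hc' k)]
    have e1 : P (fun k => ⁅x k, y k⁆) = ⁅P x, P y⁆ := by
      simp only [commutatorElement_def]
      rw [hmulP (fun k => x k * y k * (x k)⁻¹) (fun k => (y k)⁻¹) hxyx hyi,
        hmulP (fun k => x k * y k) (fun k => (x k)⁻¹) hxy hxi, hmulP x y hxH hyH,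
        hPinv x hxH, hPinv y hyH]
    rw [e1]
    exact ⟨P x, (hmem1 _).2 (hPi.hmem x hxH), P y, (hmem1 _).2 (hPi.hmem y hyH), P c',
      ih c' hc', rfl⟩

end Pool.Agent.NH49.LR
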