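import Pool.Agent.NH49.LR.Stm
import Pool.Agent.R773.HN.Grp

/-!
# Project LR, part PIM: the infinite product is multiplicative
-/

set_option autoImplicit false

open Set Filter Topology Function
open scoped commutatorElement

namespace Pool.Agent.NH49.LR

open Pool.Agent.Y453.HB
open Pool.Agent.R773.HN

namespace PIM

/-- elements of `HamBar n` preserve the closed unit ball -/
theorem maps_ball {n : ℕ} {b : E n ≃ₜ E n} (hb : b ∈ HamBar n) {x : E n} (hx : nm x ≤ 1) :
    nm (b x) ≤ 1 := by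
  obtain ⟨K, -, hK1, hK2⟩ := cpt_supp hb
  have h : Supp {x : E n | nm x ≤ 1} b :=
    hK2.mono fun y hy => (nm_lt_one (hK1 hy)).le
  exact h.maps (x := x) hx

end PIM

open PIM in
/-- LR-PIM -/
theorem t_PIM : S_PIM := by
  intro n s t0 z0 _ P hP b b' hb hb'
  have hbb : ∀ k, (fun k => b k * b' k) k ∈ HamBar n :=
    fun k => (HamBar n).mul_mem (hb k) (hb' k)
  refine Homeomorph.ext fun y => ?_
  rw [mul_apply]
  by_cases h : ∃ (k : ℕ) (x : E n), nm x < 1 ∧ y = s ^ k • (z0 + t0 • x)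
  · obtain ⟨k, x, hx, rfl⟩ := h
    rw [hP.hon _ hbb k x hx.le, hP.hon b' hb' k x hx.le,
      hP.hon b hb k _ (maps_ball (hb' k) hx.le)]
    rfl
  · push Not at h
    rw [hP.hoff _ hbb y h, hP.hoff b' hb' y h, hP.hoff b hb y h]

end Pool.Agent.NH49.LR
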