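import Pool.Agent.NH49.LR.Stm
import Pool.Agent.R773.HN.Grp

/-!
# LR-PIS: single factors of the infinite product (MP_68f289_gt)
-/

set_option autoImplicit false

open Set Filter Topology Function

namespace Pool.Agent.NH49.LR

open Pool.Agent.Y453.HB
open Pool.Agent.R773.HN

namespace PisP

variable {n : ℕ}

theorem nm_ball {s t0 : ℝ} {z0 : E n} (hs : 0 < s) (ht : 0 < t0) (k : ℕ) {x : E n} (hx : nm x < 1) :
    nm (s ^ k • (z0 + t0 • x)) < s ^ k * (nm z0 + t0) ∧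
      s ^ k * (nm z0 - t0) < nm (s ^ k • (z0 + t0 • x)) := by
  have h0 : 0 < s ^ k := pow_pos hs k
  rw [nm_smul, abs_of_pos h0]
  have h1 : nm (t0 • x) < t0 := by
    rw [nm_smul, abs_of_pos ht]
    nlinarith [nm_nonneg x]
  have h2 := nm_add z0 (t0 • x)
  have h3 : nm z0 ≤ nm (z0 + t0 • x) + nm (t0 • x) := by
    have := nm_add (z0 + t0 • x) (-(t0 • x))
    rw [nm_neg] at this
    simpa using this
  constructor
  · exact mul_lt_mul_of_pos_left (by linarith) h0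
  · exact mul_lt_mul_of_pos_left (by linarith) h0

/-- disjointness of the balls -/
theorem disj_lt {s t0 : ℝ} {z0 : E n} (hg : Geo n s t0 z0) {k l : ℕ} (hkl : k < l) {x x' : E n}
    (hx : nm x < 1) (hx' : nm x' < 1) : s ^ k • (z0 + t0 • x) ≠ s ^ l • (z0 + t0 • x') := by
  intro he
  have h1 := (nm_ball (z0 := z0) hg.s_pos hg.t_pos k hx).2
  have h2 := (nm_ball (z0 := z0) hg.s_pos hg.t_pos l hx').1
  rw [he] at h1
  have h3 : s ^ l ≤ s ^ (k + 1) := pow_le_pow_of_le_one hg.s_pos.le hg.s_lt.le hkl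
  have h4 : 0 < nm z0 + t0 := by
    have := nm_nonneg z0
    have := hg.t_pos
    linarith
  have h5 : s ^ l * (nm z0 + t0) ≤ s ^ (k + 1) * (nm z0 + t0) :=
    mul_le_mul_of_nonneg_right h3 h4.le
  have h6 : s ^ (k + 1) * (nm z0 + t0) ≤ s ^ k * (nm z0 - t0) := by
    rw [pow_succ, mul_assoc]
    exact mul_le_mul_of_nonneg_left hg.dis.le (pow_pos hg.s_pos k).le
  linarith

theorem disj {s t0 : ℝ} {z0 : E n} (hg : Geo n s t0 z0) {k l : ℕ} (hkl : k ≠ l) {x x' : E n}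
    (hx : nm x < 1) (hx' : nm x' < 1) : s ^ k • (z0 + t0 • x) ≠ s ^ l • (z0 + t0 • x') := by
  rcases lt_or_gt_of_ne hkl with h | h
  · exact disj_lt hg h hx hx'
  · exact (disj_lt hg h hx' hx).symm

end PisP

open PisP

theorem t_PIS0 (h : S_AP) : S_PIS := by
  intro n s t0 z0 hg P hP b hb j hj
  have hsj : 0 < s ^ j := pow_pos hg.s_pos j
  have ht : 0 < s ^ j * t0 := mul_pos hsj hg.t_pos
  have hin : nm (s ^ j • z0) + s ^ j * t0 < 1 := by
    rw [nm_smul, abs_of_pos hsj, ← mul_add]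
    have h1 : s ^ j ≤ 1 := pow_le_one₀ hg.s_pos.le hg.s_lt.le
    have h2 : 0 ≤ nm z0 + t0 := add_nonneg (nm_nonneg z0) hg.t_pos.le
    have h3 := hg.in1
    calc s ^ j * (nm z0 + t0) ≤ 1 * (nm z0 + t0) := mul_le_mul_of_nonneg_right h1 h2
      _ < 1 := by rw [one_mul]; exact h3
  obtain ⟨φ, -, κ, hκ, ht', he, hon, hoff⟩ := h n (s ^ j • z0) (s ^ j * t0) ht hin (b j) (hb j)
  have hform : ∀ x : E n, s ^ j • z0 + (s ^ j * t0) • x = s ^ j • (z0 + t0 • x) := by
    intro x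
    rw [smul_add, mul_smul]
  refine ⟨κ, hκ, ht', ?_⟩
  rw [← he]
  ext1 y
  by_cases hy : ∃ (k : ℕ) (x : E n), nm x < 1 ∧ y = s ^ k • (z0 + t0 • x)
  · obtain ⟨k, x, hx, rfl⟩ := hy
    rw [hP.hon b hb k x hx.le]
    by_cases hk : k = j
    · subst hk
      rw [← hform x, hon x hx.le, hform]
    · rw [hj k hk, hoff]
      · rfl
      · intro x' hx'
        rw [hform]
        exact disj hg hk hx hx'
  · push Not at hy
    rw [hP.hoff b hb y hy, hoff]
    intro x hx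
    rw [hform]
    exact hy j x hx

theorem t_PIS (h : S_AP) (_ : S_BL) : S_PIS := t_PIS0 h

end Pool.Agent.NH49.LR
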