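import Pool.Agent.NH49.LR.Stm
import Pool.Agent.R773.HN.Grp

/-!
# Project LR, LR-PIT: the tails of the infinite product
-/

set_option autoImplicit false

open Set Filter Topology Function
open scoped commutatorElement

namespace Pool.Agent.NH49.LR

open Pool.Agent.Y453.HB
open Pool.Agent.R773.HN

namespace PIT

variable {n : ℕ} {s t0 : ℝ} {z0 : E n}

/-- the balls are disjoint -/
theorem disj (h : Geo n s t0 z0) {k l : ℕ} (hkl : k < l) {x x' : E n} (hx : nm x < 1)
    (hx' : nm x' < 1) : s ^ k • (z0 + t0 • x) ≠ s ^ l • (z0 + t0 • x') := by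
  intro he
  have hs := h.s_pos
  have e := congrArg nm he
  rw [nm_smul, nm_smul, abs_of_pos (pow_pos hs k), abs_of_pos (pow_pos hs l)] at e
  have h1 : nm z0 - t0 < nm (z0 + t0 • x) := by
    have h2 := nm_add (z0 + t0 • x) (-(t0 • x))
    rw [add_neg_cancel_right, nm_neg, nm_smul, abs_of_pos h.t_pos] at h2
    have h3 : t0 * nm x < t0 * 1 := mul_lt_mul_of_pos_left hx h.t_pos
    linarith
  have h4 : nm (z0 + t0 • x') ≤ nm z0 + t0 := by
    have h2 := nm_add z0 (t0 • x')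
    rw [nm_smul, abs_of_pos h.t_pos] at h2
    have h3 : t0 * nm x' < t0 * 1 := mul_lt_mul_of_pos_left hx' h.t_pos
    linarith
  have h5 : s ^ l ≤ s ^ (k + 1) := pow_le_pow_of_le_one hs.le h.s_lt.le hkl
  have h6 : 0 < s ^ k := pow_pos hs k
  have h7 : 0 ≤ nm z0 + t0 := add_nonneg (nm_nonneg z0) h.t_pos.le
  have h8 : s ^ l * nm (z0 + t0 • x') ≤ s ^ l * (nm z0 + t0) :=
    mul_le_mul_of_nonneg_left h4 (pow_pos hs l).le
  have h9 : s ^ l * (nm z0 + t0) ≤ s ^ (k + 1) * (nm z0 + t0) := mul_le_mul_of_nonneg_right h5 h7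
  have h10 : s ^ (k + 1) * (nm z0 + t0) = s ^ k * (s * (nm z0 + t0)) := by
    rw [pow_succ]
    ring
  have h11 : s ^ k * (s * (nm z0 + t0)) < s ^ k * (nm z0 - t0) := mul_lt_mul_of_pos_left h.dis h6
  have h12 : s ^ k * (nm z0 - t0) < s ^ k * nm (z0 + t0 • x) := mul_lt_mul_of_pos_left h1 h6
  linarith

end PIT

open PIT in
theorem t_PIT' : S_PIT := by
  intro n s t0 z0 h P hP b hb m hbm
  have hs := h.s_pos
  have hm : 0 < s ^ m := pow_pos hs m
  have hb' : ∀ k, b (k + m) ∈ HamBar n := fun k => hb _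
  refine ⟨hm, P (fun k => b (k + m)), hP.hmem _ hb', ?_⟩
  refine Homeomorph.ext fun y => ?_
  rw [mul_apply, mul_apply, dil_inv_apply, dil_apply]
  have hinv : s ^ m • (s ^ m)⁻¹ • y = y := by
    rw [smul_smul, mul_inv_cancel₀ hm.ne', one_smul]
  have hback : ∀ (j : ℕ) (x : E n), (s ^ m)⁻¹ • y = s ^ j • (z0 + t0 • x) →
      y = s ^ (m + j) • (z0 + t0 • x) := by
    intro j x hj
    rw [← hinv, hj, smul_smul, ← pow_add]
  by_cases hy : ∃ (k : ℕ) (x : E n), nm x < 1 ∧ y = s ^ k • (z0 + t0 • x)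
  · obtain ⟨k, x, hx, rfl⟩ := hy
    rw [hP.hon b hb k x hx.le]
    rcases lt_or_ge k m with hkm | hkm
    · rw [hbm k hkm, hP.hoff (fun k => b (k + m)) hb', hinv]
      · rfl
      · intro j x' hx' hj
        exact disj h (show k < m + j by omega) hx hx' (hback j x' hj)
    · obtain ⟨j, rfl⟩ := Nat.exists_eq_add_of_le hkm
      have e : (s ^ m)⁻¹ • s ^ (m + j) • (z0 + t0 • x) = s ^ j • (z0 + t0 • x) := by
        rw [smul_smul, pow_add, ← mul_assoc, inv_mul_cancel₀ hm.ne', one_mul]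
      rw [e, hP.hon (fun k => b (k + m)) hb' j x hx.le, smul_smul, ← pow_add, add_comm m j]
  · push Not at hy
    rw [hP.hoff b hb y fun k x hx => hy k x hx, hP.hoff (fun k => b (k + m)) hb', hinv]
    intro j x hx hj
    exact hy (m + j) x hx (hback j x hj)

theorem t_PIT (_hB : S_BL) : S_PIT := t_PIT'

end Pool.Agent.NH49.LR
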