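import Pool.Agent.NH49.LR.Stm
import Pool.Agent.R773.HN.Grp

/-!
# Project LR, part SHG: the shift
-/

set_option autoImplicit false

open Set Filter Topology Function
open scoped commutatorElement

namespace Pool.Agent.NH49.LR

open Pool.Agent.Y453.HB
open Pool.Agent.R773.HN

namespace SHG

variable {n : ℕ}

/-- the value of the contracted homeomorphism -/
lemma half_apply (h2 : (0 : ℝ) < 1 / 2) (c : E n ≃ₜ E n) (x : E n) :
    (dil (1 / 2) h2 * c * (dil (1 / 2) h2)⁻¹ : E n ≃ₜ E n) x =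
      (1 / 2 : ℝ) • c ((2 : ℝ) • x) := by
  rw [mul_apply, mul_apply, dil_inv_apply, dil_apply]
  norm_num

lemma vec1 (k : ℕ) (z x : E n) : (1 / 2 : ℝ) ^ k • (z + (1 / 16 : ℝ) • x - (1 / 2 : ℝ) • z) =
    (1 / 2 : ℝ) ^ (k + 1) • (z + (1 / 8 : ℝ) • x) := by
  rw [pow_succ, mul_smul]
  congr 1
  module

lemma vec2 (k : ℕ) (z x : E n) : (1 / 2 : ℝ) ^ k • (z + (1 / 8 : ℝ) • ((1 / 2 : ℝ) • x)) =
    (1 / 2 : ℝ) ^ k • (z + (1 / 16 : ℝ) • x) := by
  congr 1
  module

lemma nm_half (x : E n) : nm ((1 / 2 : ℝ) • x) = 1 / 2 * nm x := by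
  rw [nm_smul, abs_of_pos (by norm_num)]

lemma nm_two (x : E n) : nm ((2 : ℝ) • x) = 2 * nm x := by
  rw [nm_smul, abs_of_pos (by norm_num)]

lemma memD (z x : E n) (hx : nm x ≤ 1) : z + (1 / 16 : ℝ) • x ∈ D z (1 / 16) := by
  show nm (z + (1 / 16 : ℝ) • x - z) ≤ 1 / 16
  rw [add_sub_cancel_left, nm_smul, abs_of_pos (by norm_num)]
  linarith

end SHG

open SHG in
/-- the shift of the factors with indices in `A` -/
theorem t_SHG (hB : S_BL) : S_SHG := by
  intro n z0 _ P hP A κ hκ h2 c hc hcA b b' hb hb0 hb1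
  obtain ⟨B1, _, _, _, Bmono, Bdil, _, Bsupp⟩ := hB n
  have hcB : ∀ k, c k ∈ Bl n 1 := fun k => by rw [B1]; exact hc k
  have hbmem : ∀ k, b k ∈ HamBar n := by
    intro k
    have h3 : b k ∈ Bl n (1 / 2 * 1) := by rw [hb k]; exact Bdil 1 (1 / 2) h2 _ (hcB k)
    have h4 := Bmono (1 / 2 * 1) 1 (by norm_num) h3
    rwa [B1] at h4
  have hb'mem : ∀ k, b' k ∈ HamBar n := by
    intro k
    rcases k with _ | k
    · rw [hb0]; exact one_mem _
    · rw [hb1]; exact hc k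
  have hcs : ∀ k, Supp {x | nm x < 1} (c k) := fun k => Bsupp 1 _ (hcB k)
  have hbap : ∀ k x, b k x = (1 / 2 : ℝ) • c k ((2 : ℝ) • x) := fun k x => by
    rw [hb k, half_apply]
  have key : ∀ w : E n, κ (P b w) = P b' (κ w) := by
    intro w
    by_cases hcase : ∃ k ∈ A, ∃ x : E n, nm x < 1 ∧ w = (1 / 2 : ℝ) ^ k • (z0 + (1 / 16 : ℝ) • x)
    · obtain ⟨k, hkA, x, hx, rfl⟩ := hcase
      have hcx : nm (c k x) < 1 := (hcs k).maps (A := {x | nm x < 1}) hx
      have e1 : P b ((1 / 2 : ℝ) ^ k • (z0 + (1 / 16 : ℝ) • x)) =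
          (1 / 2 : ℝ) ^ k • (z0 + (1 / 16 : ℝ) • c k x) := by
        have hy : nm ((1 / 2 : ℝ) • x) ≤ 1 := by rw [nm_half]; linarith
        have h3 := hP.hon b hbmem k ((1 / 2 : ℝ) • x) hy
        rw [vec2, hbap, smul_smul (2 : ℝ) (1 / 2 : ℝ) x] at h3
        rw [h3, show (2 : ℝ) * (1 / 2) = 1 by norm_num, one_smul, vec2]
      have e2 : κ ((1 / 2 : ℝ) ^ k • (z0 + (1 / 16 : ℝ) • c k x)) =
          (1 / 2 : ℝ) ^ (k + 1) • (z0 + (1 / 8 : ℝ) • c k x) := by
        rw [hκ k hkA _ (memD z0 _ hcx.le), vec1]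
      have e3 : κ ((1 / 2 : ℝ) ^ k • (z0 + (1 / 16 : ℝ) • x)) =
          (1 / 2 : ℝ) ^ (k + 1) • (z0 + (1 / 8 : ℝ) • x) := by
        rw [hκ k hkA _ (memD z0 _ hx.le), vec1]
      rw [e1, e2, e3, hP.hon b' hb'mem (k + 1) x hx.le, hb1]
    · have e1 : P b w = w := by
        by_cases h : ∃ (k : ℕ) (x : E n), nm x < 1 ∧ w = (1 / 2 : ℝ) ^ k • (z0 + (1 / 8 : ℝ) • x)
        · obtain ⟨k, x, hx, rfl⟩ := h
          rw [hP.hon b hbmem k x hx.le]
          have : b k x = x := by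
            rw [hbap]
            have h5 : c k ((2 : ℝ) • x) = (2 : ℝ) • x := by
              by_cases hkA : k ∈ A
              · refine hcs k _ fun h6 => hcase ⟨k, hkA, (2 : ℝ) • x, h6, ?_⟩
                congr 1
                module
              · rw [hcA k hkA]; rfl
            rw [h5, smul_smul, show (1 / 2 : ℝ) * 2 = 1 by norm_num, one_smul]
          rw [this]
        · exact hP.hoff b hbmem w fun k x hx hw => h ⟨k, x, hx, hw⟩
      have e2 : P b' (κ w) = κ w := by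
        by_cases h : ∃ (k : ℕ) (x : E n), nm x < 1 ∧
            κ w = (1 / 2 : ℝ) ^ k • (z0 + (1 / 8 : ℝ) • x)
        · obtain ⟨l, x, hx, hw⟩ := h
          rw [hw, hP.hon b' hb'mem l x hx.le]
          have : b' l x = x := by
            rcases l with _ | k
            · rw [hb0]; rfl
            · rw [hb1]
              by_cases hkA : k ∈ A
              · exfalso
                refine hcase ⟨k, hkA, x, hx, κ.injective ?_⟩
                rw [hw, hκ k hkA _ (memD z0 _ hx.le), vec1]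
              · rw [hcA k hkA]; rfl
          rw [this]
        · exact hP.hoff b' hb'mem _ fun k x hx hw => h ⟨k, x, hx, hw⟩
      rw [e1, e2]
  ext w : 1
  rw [mul_apply, mul_apply, key]
  congr 1
  exact κ.apply_symm_apply w

end Pool.Agent.NH49.LR
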