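import Pool.Agent.NH49.LR.Stm

/-!
# Project LR (helper49): products of conjugates
-/

set_option autoImplicit false

open Set Filter Topology Function
open scoped commutatorElement

namespace Pool.Agent.NH49.LR

open Pool.Agent.Y453.HB
open Pool.Agent.R773.HN

namespace WC39

/-- LR-WC: products of conjugates -/
theorem wc (hB : S_BL) (n : ℕ) (t r : ℝ) (ht : 0 < t) (hr : 0 < r) :
    (∀ m : ℕ, (1 : E n ≃ₜ E n) ∈ Wc n t r m) ∧
    (∀ m k : ℕ, m ≤ k → Wc n t r m ⊆ Wc n t r k) ∧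
    (∀ (m k : ℕ), ∀ a ∈ Wc n t r m, ∀ b ∈ Wc n t r k, a * b ∈ Wc n t r (m + k)) ∧
    (∀ m : ℕ, ∀ a ∈ Wc n t r m, a⁻¹ ∈ Wc n t r m) ∧
    (∀ m : ℕ, ∀ a ∈ Wc n t r m, ∀ h ∈ Bl n t, h * a * h⁻¹ ∈ Wc n t r m) ∧
    (∀ a ∈ Bl n r, a ∈ Wc n t r 1) ∧
    (∀ (m : ℕ) (s : ℝ) (hs : 0 < s), ∀ a ∈ Wc n t r m,
      dil s hs * a * (dil s hs)⁻¹ ∈ Wc n (s * t) (s * r) m) := by
  obtain ⟨-, h1, hmul, hinv, -, hdil, -, -⟩ := hB n
  have one : ∀ m : ℕ, (1 : E n ≃ₜ E n) ∈ Wc n t r m := by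
    intro m
    induction m with
    | zero => exact rfl
    | succ m ih => exact ⟨1, h1 t ht, 1, h1 r hr, 1, ih, by group⟩
  have mul : ∀ (m k : ℕ), ∀ a ∈ Wc n t r m, ∀ b ∈ Wc n t r k, a * b ∈ Wc n t r (m + k) := by
    intro m k
    induction m with
    | zero =>
      intro a ha b hb
      obtain rfl : a = 1 := ha
      rw [one_mul, Nat.zero_add]
      exact hb
    | succ m ih =>
      intro a ha b hb
      obtain ⟨h, hh, c, hc, w, hw, rfl⟩ := ha
      rw [show m + 1 + k = m + k + 1 by omega]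
      exact ⟨h, hh, c, hc, w * b, ih w hw b hb, by group⟩
  refine ⟨one, ?_, mul, ?_, ?_, ?_, ?_⟩
  · intro m k hmk a ha
    have := mul m (k - m) a ha 1 (one _)
    rwa [mul_one, Nat.add_sub_cancel' hmk] at this
  · intro m
    induction m with
    | zero =>
      intro a ha
      obtain rfl : a = 1 := ha
      exact inv_one
    | succ m ih =>
      intro a ha
      obtain ⟨h, hh, c, hc, w, hw, rfl⟩ := ha
      have := mul m 1 w⁻¹ (ih w hw) (h * c⁻¹ * h⁻¹ * 1)
        ⟨h, hh, c⁻¹, hinv r c hc, 1, rfl, rfl⟩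
      rwa [show w⁻¹ * (h * c⁻¹ * h⁻¹ * 1) = (h * c * h⁻¹ * w)⁻¹ by group] at this
  · intro m
    induction m with
    | zero =>
      intro a ha h _
      obtain rfl : a = 1 := ha
      rw [mul_one, mul_inv_cancel]
      exact rfl
    | succ m ih =>
      intro a ha g hg
      obtain ⟨h, hh, c, hc, w, hw, rfl⟩ := ha
      exact ⟨g * h, hmul t g hg h hh, c, hc, g * w * g⁻¹, ih w hw g hg, by group⟩
  · intro a ha
    exact ⟨1, h1 t ht, a, ha, 1, rfl, by group⟩
  · intro m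
    induction m with
    | zero =>
      intro s hs a ha
      obtain rfl : a = 1 := ha
      rw [mul_one, mul_inv_cancel]
      exact rfl
    | succ m ih =>
      intro s hs a ha
      obtain ⟨h, hh, c, hc, w, hw, rfl⟩ := ha
      refine ⟨dil s hs * h * (dil s hs)⁻¹, hdil t s hs h hh, dil s hs * c * (dil s hs)⁻¹,
        hdil r s hs c hc, dil s hs * w * (dil s hs)⁻¹, ih s hs w hw, by group⟩

end WC39

/-- LR-WC: products of conjugates -/
theorem t_WC (hB : S_BL) : S_WC := WC39.wc hB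

end Pool.Agent.NH49.LR
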