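import Pool.Agent.NH49.LR.Asm
import Pool.Agent.NH49.LR.BL
import Pool.Agent.NH49.LR.WC
import Pool.Agent.NH49.LR.CM
import Pool.Agent.NH49.LR.IPH
import Pool.Agent.NH49.LR.IPM
import Pool.Agent.NH49.LR.AP
import Pool.Agent.NH49.LR.IPL
import Pool.Agent.NH49.LR.PIM
import Pool.Agent.NH49.LR.PIT
import Pool.Agent.NH49.LR.PIS
import Pool.Agent.NH49.LR.PIC
import Pool.Agent.NH49.LR.KAP
import Pool.Agent.NH49.LR.SHG
import Pool.Agent.NH49.LR.SHF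
import Pool.Agent.NH49.LR.LER
import Pool.Agent.NH49.LR.LER2
import Pool.Agent.NH49.LR.NCL
import Pool.Agent.NH49.LR.HUMP

/-!
# Project LR: the pieces together
-/

set_option autoImplicit false

namespace Pool.Agent.NH49.LR

theorem a_WC : S_WC := t_WC t_BL

theorem a_CM : S_CM := t_CM t_BL

theorem a_IPL : S_IPL := t_IPL t_IPH t_IPM t_AP

theorem a_SHF : S_SHF := t_SHF t_BL a_CM (t_KAP t_IPH t_IPM) (t_SHG t_BL) t_PIM

theorem a_LER : S_LER := t_LER t_BL a_WC a_CM a_IPL t_PIM (t_PIS t_AP t_BL) (t_PIC t_BL t_PIM) a_SHF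

theorem a_LER2 : S_LER2 := t_LER2 t_BL a_WC a_CM a_LER

theorem a_HUMP : S_HUMP := t_HUMP t_BL a_WC a_IPL t_PIM (t_PIT t_BL) (t_PIS t_AP t_BL)
  (t_NCL t_BL a_WC) t_REC

end Pool.Agent.NH49.LR
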