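import Pool.Agent.NH49.LR.Stm

/-!
# Project LR: assembly of the shift (LR-SHF)
-/

set_option autoImplicit false

open Set Filter Topology Function
open scoped commutatorElement

namespace Pool.Agent.NH49.LR

open Pool.Agent.Y453.HB
open Pool.Agent.R773.HN

namespace ShfAux

/-- the sequence shifted by one -/
def sh {G : Type*} [One G] (c : ℕ → G) : ℕ → G
  | 0 => 1
  | k + 1 => c k

theorem mem_one {G : Type*} [One G] {S : Set G} (h1 : 1 ∈ S) {c : ℕ → G}
    (hc : ∀ k, c k ∈ S) : ∀ k, sh c k ∈ S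
  | 0 => h1
  | k + 1 => hc k

theorem com_eq {G : Type*} [Group G] {x κ y : G} (h : κ * x * κ⁻¹ = y) : x = ⁅x, κ⁆ * y := by
  rw [← h, commutatorElement_def]
  group

theorem cm_one {n : ℕ} {x y : E n ≃ₜ E n} (hx : x ∈ Bl n 1) (hy : y ∈ Bl n 1) :
    ⁅x, y⁆ ∈ Cm n 1 1 := ⟨x, hx, y, hy, 1, rfl, (mul_one _).symm⟩

end ShfAux

open ShfAux in
/-- **LR-SHF**: the shift -/
theorem t_SHF (hB : S_BL) (hC : S_CM) (hK : S_KAP) (hG : S_SHG) (hM : S_PIM) : S_SHF := by
  intro n z0 hz0 P hP h2 c hc b b' hb hb0 hb'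
  classical
  obtain ⟨b1, b2, b3, b4, b5, -, -, -⟩ := hB n
  obtain ⟨c1, c2, -, -⟩ := hC n 1 one_pos
  obtain ⟨κ, hκ, hκ'⟩ := hK n z0 hz0
  have hgeo : Geo n (1 / 2) (1 / 8) z0 := by
    refine ⟨by norm_num, by norm_num, by norm_num, ?_, ?_⟩
    · rw [hz0]; norm_num
    · rw [hz0]; norm_num
  have hHam : ∀ {x : E n ≃ₜ E n}, x ∈ Bl n 1 ↔ x ∈ HamBar n := fun {x} => by
    rw [b1]
    rfl
  have hconj : ∀ g ∈ HamBar n, dil (1 / 2) h2 * g * (dil (1 / 2) h2)⁻¹ ∈ HamBar n := by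
    intro g hg
    exact hHam.1 (b5 (1 / 2) 1 (by norm_num) ⟨h2, g, hg, rfl⟩)
  let ce : ℕ → (E n ≃ₜ E n) := fun k => if Even k then c k else 1
  let co : ℕ → (E n ≃ₜ E n) := fun k => if Even k then 1 else c k
  have hce : ∀ k, ce k ∈ HamBar n := fun k => by
    simp only [ce]
    split_ifs
    · exact hc k
    · exact Subgroup.one_mem _
  have hco : ∀ k, co k ∈ HamBar n := fun k => by
    simp only [co]
    split_ifs
    · exact Subgroup.one_mem _
    · exact hc k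
  have hcc : ∀ k, ce k * co k = c k := fun k => by
    simp only [ce, co]
    split_ifs
    · rw [mul_one]
    · rw [one_mul]
  let be : ℕ → (E n ≃ₜ E n) := fun k => dil (1 / 2) h2 * ce k * (dil (1 / 2) h2)⁻¹
  let bo : ℕ → (E n ≃ₜ E n) := fun k => dil (1 / 2) h2 * co k * (dil (1 / 2) h2)⁻¹
  have hbe : ∀ k, be k ∈ HamBar n := fun k => hconj _ (hce k)
  have hbo : ∀ k, bo k ∈ HamBar n := fun k => hconj _ (hco k)
  have hse : ∀ k, sh ce k ∈ HamBar n :=
    mem_one (S := (HamBar n : Set (E n ≃ₜ E n))) (Subgroup.one_mem _) hce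
  have hso : ∀ k, sh co k ∈ HamBar n :=
    mem_one (S := (HamBar n : Set (E n ≃ₜ E n))) (Subgroup.one_mem _) hco
  have e1 : P b = P be * P bo := by
    rw [← hM n _ _ z0 hgeo P hP be bo hbe hbo]
    congr 1
    funext k
    rw [hb k, ← hcc k]
    simp only [be, bo]
    group
  have e2 : P b' = P (sh ce) * P (sh co) := by
    rw [← hM n _ _ z0 hgeo P hP (sh ce) (sh co) hse hso]
    congr 1
    funext k
    rcases k with _ | k
    · rw [hb0]
      simp only [sh]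
      rw [mul_one]
    · rw [hb' k]
      simp only [sh]
      exact (hcc k).symm
  -- the even part
  have s1 : κ * P be * κ⁻¹ = P (sh ce) := by
    refine hG n z0 hz0 P hP {k | Even k} κ ?_ h2 ce hce ?_ be (sh ce) (fun k => rfl) rfl
      (fun k => rfl)
    · rintro k ⟨j, rfl⟩ x hx
      have e : (1 / 2 : ℝ) ^ (j + j) = (1 / 4) ^ j := by
        rw [← two_mul, pow_mul]
        norm_num
      rw [e]
      exact hκ' j x hx
    · intro k hk
      exact if_neg hk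
  -- the odd part
  have s2 : (dil (1 / 2) h2 * κ * (dil (1 / 2) h2)⁻¹) * P bo *
      (dil (1 / 2) h2 * κ * (dil (1 / 2) h2)⁻¹)⁻¹ = P (sh co) := by
    refine hG n z0 hz0 P hP {k | ¬ Even k} (dil (1 / 2) h2 * κ * (dil (1 / 2) h2)⁻¹) ?_ h2 co hco
      ?_ bo (sh co) (fun k => rfl) rfl (fun k => rfl)
    · intro k hk x hx
      obtain ⟨j, rfl⟩ := Nat.not_even_iff_odd.1 hk
      rw [mul_apply, mul_apply, dil_inv_apply, dil_apply, smul_smul]
      have e : (1 / 2 : ℝ)⁻¹ * (1 / 2 : ℝ) ^ (2 * j + 1) = (1 / 4) ^ j := by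
        rw [pow_succ, pow_mul]
        norm_num
        ring
      rw [e, hκ' j x hx, smul_smul]
      congr 1
      rw [pow_succ, pow_mul]
      norm_num
      ring
    · intro k hk
      have hk' : Even k := by
        by_contra h
        exact hk h
      exact if_pos hk'
  have hPbe : P be ∈ HamBar n := hP.hmem _ hbe
  have hPbo : P bo ∈ HamBar n := hP.hmem _ hbo
  have hPse : P (sh ce) ∈ HamBar n := hP.hmem _ hse
  have w1 : ⁅P be, κ⁆ ∈ Cm n 1 1 := cm_one (hHam.2 hPbe) (hHam.2 hκ)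
  have w2 : ⁅P bo, dil (1 / 2) h2 * κ * (dil (1 / 2) h2)⁻¹⁆ ∈ Cm n 1 1 :=
    cm_one (hHam.2 hPbo) (hHam.2 (hconj _ hκ))
  have w3 := c2 1 _ w2 (P (sh ce)) (hHam.2 hPse)
  refine ⟨_, c1 1 1 _ w1 _ w3, ?_⟩
  rw [e2, e1]
  conv_lhs => rw [com_eq s1, com_eq s2]
  group

end Pool.Agent.NH49.LR
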