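import Pool.Agent.R773.HN.Stm

/-!
# Project LR (helper49): fragmentation of Hamiltonian homeomorphisms of the ball (MP_68f289_gt)

Le Roux type theorem in all dimensions `2n`.  `HamBar n`: the group of the compactly supported Hamiltonian
homeomorphisms of the open unit ball (`Pool/Agent/Y453/HB/Stm.lean`); `dil s hs`: the dilation `x ↦ s x`;
`Q`: the square of the Euclidean norm; `nm x = √(Q x)`, `D q r` the closed ball, `Supp A f`: `f` is the identity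
off `A` (`Pool/Agent/R773/HN/Stm.lean`).  Statements of the parts.
-/

set_option autoImplicit false

open Set Filter Topology Function
open scoped commutatorElement

namespace Pool.Agent.NH49.LR

open Pool.Agent.Y453.HB
open Pool.Agent.R773.HN

/-! ## Definitions -/

/-- the Hamiltonian homeomorphisms of the open ball of radius `s` with centre `0` -/
def Bl (n : ℕ) (s : ℝ) : Set (E n ≃ₜ E n) :=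
  {φ | ∃ hs : 0 < s, ∃ g ∈ HamBar n, φ = dil s hs * g * (dil s hs)⁻¹}

/-- the products of `m` conjugates, by elements of `Bl n t`, of elements of `Bl n r` -/
def Wc (n : ℕ) (t r : ℝ) : ℕ → Set (E n ≃ₜ E n)
  | 0 => {1}
  | m + 1 => {φ | ∃ h ∈ Bl n t, ∃ b ∈ Bl n r, ∃ w ∈ Wc n t r m, φ = h * b * h⁻¹ * w}

/-- the products of `m` commutators of elements of `Bl n t` -/
def Cm (n : ℕ) (t : ℝ) : ℕ → Set (E n ≃ₜ E n)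
  | 0 => {1}
  | m + 1 => {φ | ∃ x ∈ Bl n t, ∃ y ∈ Bl n t, ∃ c ∈ Cm n t m, φ = ⁅x, y⁆ * c}

/-- bounded fragmentation of the elements of `Bl n ρ` into elements of balls of half the radius -/
def Frg (n : ℕ) (ρ : ℝ) : Prop := ∃ m : ℕ, ∀ g ∈ Bl n ρ, g ∈ Wc n 1 (ρ / 2) m

/-- the shell -/
def Shl (n : ℕ) (s ρ : ℝ) : Set (E n) := {x | (s * ρ) ^ 2 < Q x ∧ Q x ≤ ρ ^ 2}

/-- homeomorphisms supported in `A` which are uniform limits of Hamiltonian diffeomorphisms supported in `A` -/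
def Ap {n : ℕ} (A : Set (E n)) : Set (E n ≃ₜ E n) :=
  {φ | Supp A φ ∧ ∃ u : ℕ → (E n ≃ₜ E n), (∀ j, IsHam (u j) ∧ Supp A (u j)) ∧
    TendstoUniformly (fun (j : ℕ) (x : E n) => u j x) (fun x => φ x) atTop}

/-- the parameters of a sequence of disjoint balls `s ^ k (z0 + t0 B)` -/
structure Geo (n : ℕ) (s t0 : ℝ) (z0 : E n) : Prop where
  s_pos : 0 < s
  s_lt : s < 1
  t_pos : 0 < t0
  in1 : nm z0 + t0 < 1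
  dis : s * (nm z0 + t0) < nm z0 - t0

/-- `P b` is the infinite product of the copies of `b k` in the balls `s ^ k (z0 + t0 B)` -/
structure IsPi (n : ℕ) (s t0 : ℝ) (z0 : E n) (P : (ℕ → (E n ≃ₜ E n)) → (E n ≃ₜ E n)) : Prop where
  hmem : ∀ b : ℕ → (E n ≃ₜ E n), (∀ k, b k ∈ HamBar n) → P b ∈ HamBar n
  hon : ∀ b : ℕ → (E n ≃ₜ E n), (∀ k, b k ∈ HamBar n) → ∀ (k : ℕ) (x : E n), nm x ≤ 1 →
    P b (s ^ k • (z0 + t0 • x)) = s ^ k • (z0 + t0 • b k x)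
  hoff : ∀ b : ℕ → (E n ≃ₜ E n), (∀ k, b k ∈ HamBar n) → ∀ y : E n,
    (∀ (k : ℕ) (x : E n), nm x < 1 → y ≠ s ^ k • (z0 + t0 • x)) → P b y = y

/-! ## Elementary parts -/

/-- LR-BL: the groups `Bl n s` -/
def S_BL : Prop := ∀ n : ℕ, Bl n 1 = (HamBar n : Set (E n ≃ₜ E n)) ∧
  (∀ s : ℝ, 0 < s → (1 : E n ≃ₜ E n) ∈ Bl n s) ∧
  (∀ s : ℝ, ∀ a ∈ Bl n s, ∀ b ∈ Bl n s, a * b ∈ Bl n s) ∧ (∀ s : ℝ, ∀ a ∈ Bl n s, a⁻¹ ∈ Bl n s) ∧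
  (∀ s t : ℝ, s ≤ t → Bl n s ⊆ Bl n t) ∧
  (∀ (s t : ℝ) (ht : 0 < t), ∀ a ∈ Bl n s, dil t ht * a * (dil t ht)⁻¹ ∈ Bl n (t * s)) ∧
  (∀ (s t : ℝ) (ht : 0 < t), ∀ a ∈ Bl n (t * s), (dil t ht)⁻¹ * a * dil t ht ∈ Bl n s) ∧
  (∀ s : ℝ, ∀ a ∈ Bl n s, Supp {x | nm x < s} a)

/-- LR-WC: products of conjugates -/
def S_WC : Prop := ∀ (n : ℕ) (t r : ℝ), 0 < t → 0 < r →
  (∀ m : ℕ, (1 : E n ≃ₜ E n) ∈ Wc n t r m) ∧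
  (∀ m k : ℕ, m ≤ k → Wc n t r m ⊆ Wc n t r k) ∧
  (∀ (m k : ℕ), ∀ a ∈ Wc n t r m, ∀ b ∈ Wc n t r k, a * b ∈ Wc n t r (m + k)) ∧
  (∀ m : ℕ, ∀ a ∈ Wc n t r m, a⁻¹ ∈ Wc n t r m) ∧
  (∀ m : ℕ, ∀ a ∈ Wc n t r m, ∀ h ∈ Bl n t, h * a * h⁻¹ ∈ Wc n t r m) ∧
  (∀ a ∈ Bl n r, a ∈ Wc n t r 1) ∧
  (∀ (m : ℕ) (s : ℝ) (hs : 0 < s), ∀ a ∈ Wc n t r m,
    dil s hs * a * (dil s hs)⁻¹ ∈ Wc n (s * t) (s * r) m)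

/-- LR-CM: products of commutators -/
def S_CM : Prop := ∀ (n : ℕ) (t : ℝ), 0 < t →
  (∀ (m k : ℕ), ∀ a ∈ Cm n t m, ∀ b ∈ Cm n t k, a * b ∈ Cm n t (m + k)) ∧
  (∀ m : ℕ, ∀ a ∈ Cm n t m, ∀ h ∈ Bl n t, h * a * h⁻¹ ∈ Cm n t m) ∧
  (∀ (m : ℕ) (s : ℝ) (hs : 0 < s), ∀ a ∈ Cm n t m, dil s hs * a * (dil s hs)⁻¹ ∈ Cm n (s * t) m) ∧
  (∀ (r : ℝ), 0 < r → r ≤ t → ∀ m : ℕ, ∀ g ∈ Wc n t r m, ∃ c ∈ Cm n t m, ∃ g' ∈ Bl n r, g = c * g')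

/-! ## Infinite products -/

/-- LR-IPH: the infinite product of homeomorphisms in the shells `s ^ k Shl` -/
def S_IPH : Prop := ∀ (n : ℕ) (s ρ : ℝ), 0 < s → s < 1 → 0 < ρ → ∀ e : ℕ → (E n ≃ₜ E n),
  (∀ k, Supp (Shl n s ρ) (e k)) → ∃ T : E n ≃ₜ E n,
    (∀ (k : ℕ), ∀ x ∈ Shl n s ρ, T (s ^ k • x) = s ^ k • e k x) ∧
    (∀ x : E n, (∀ (k : ℕ), ∀ y ∈ Shl n s ρ, x ≠ s ^ k • y) → T x = x)

/-- LR-IPM: the infinite product is a Hamiltonian homeomorphism -/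
def S_IPM : Prop := ∀ (n : ℕ) (s ρ : ℝ), 0 < s → s < 1 → 0 < ρ → ρ < 1 → ∀ e : ℕ → (E n ≃ₜ E n),
  (∀ k, e k ∈ Ap (Shl n s ρ)) → ∀ T : E n ≃ₜ E n,
    (∀ (k : ℕ), ∀ x ∈ Shl n s ρ, T (s ^ k • x) = s ^ k • e k x) →
    (∀ x : E n, (∀ (k : ℕ), ∀ y ∈ Shl n s ρ, x ≠ s ^ k • y) → T x = x) → T ∈ HamBar n

/-- LR-AP: a copy of a Hamiltonian homeomorphism in the ball `D z t` -/
def S_AP : Prop := ∀ (n : ℕ) (z : E n) (t : ℝ), 0 < t → nm z + t < 1 → ∀ b ∈ HamBar n,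
  ∃ φ ∈ Ap (D z t), ∃ κ ∈ HamBar n, ∃ ht : 0 < t, φ = κ * (dil t ht * b * (dil t ht)⁻¹) * κ⁻¹ ∧
    (∀ x : E n, nm x ≤ 1 → φ (z + t • x) = z + t • b x) ∧
    (∀ y : E n, (∀ x : E n, nm x < 1 → y ≠ z + t • x) → φ y = y)

/-- LR-IPL: existence of the infinite product of copies -/
def S_IPL : Prop := ∀ (n : ℕ) (s t0 : ℝ) (z0 : E n), Geo n s t0 z0 →
  ∃ P : (ℕ → (E n ≃ₜ E n)) → (E n ≃ₜ E n), IsPi n s t0 z0 P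

/-- LR-PIM: the infinite product is multiplicative -/
def S_PIM : Prop := ∀ (n : ℕ) (s t0 : ℝ) (z0 : E n), Geo n s t0 z0 →
  ∀ P : (ℕ → (E n ≃ₜ E n)) → (E n ≃ₜ E n), IsPi n s t0 z0 P →
  ∀ b b' : ℕ → (E n ≃ₜ E n), (∀ k, b k ∈ HamBar n) → (∀ k, b' k ∈ HamBar n) →
    P (fun k => b k * b' k) = P b * P b'

/-- LR-PIT: the tails of the infinite product -/
def S_PIT : Prop := ∀ (n : ℕ) (s t0 : ℝ) (z0 : E n), Geo n s t0 z0 →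
  ∀ P : (ℕ → (E n ≃ₜ E n)) → (E n ≃ₜ E n), IsPi n s t0 z0 P →
  ∀ b : ℕ → (E n ≃ₜ E n), (∀ k, b k ∈ HamBar n) → ∀ m : ℕ, (∀ k < m, b k = 1) →
    P b ∈ Bl n (s ^ m)

/-- LR-PIS: the single factors of the infinite product -/
def S_PIS : Prop := ∀ (n : ℕ) (s t0 : ℝ) (z0 : E n), Geo n s t0 z0 →
  ∀ P : (ℕ → (E n ≃ₜ E n)) → (E n ≃ₜ E n), IsPi n s t0 z0 P →
  ∀ b : ℕ → (E n ≃ₜ E n), (∀ k, b k ∈ HamBar n) → ∀ j : ℕ, (∀ k, k ≠ j → b k = 1) →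
    ∃ κ ∈ HamBar n, ∃ h : 0 < s ^ j * t0,
      P b = κ * (dil (s ^ j * t0) h * b j * (dil (s ^ j * t0) h)⁻¹) * κ⁻¹

/-- LR-PIC: infinite products of products of commutators -/
def S_PIC : Prop := ∀ (n : ℕ) (s t0 : ℝ) (z0 : E n), Geo n s t0 z0 →
  ∀ P : (ℕ → (E n ≃ₜ E n)) → (E n ≃ₜ E n), IsPi n s t0 z0 P →
  ∀ (m : ℕ) (c : ℕ → (E n ≃ₜ E n)), (∀ k, c k ∈ Cm n 1 m) → P c ∈ Cm n 1 m

/-- LR-KAP: infinitely many translations -/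
def S_KAP : Prop := ∀ (n : ℕ) (z0 : E n), nm z0 = 1 / 2 → ∃ κ ∈ HamBar n, ∀ (j : ℕ),
  ∀ x ∈ D z0 (1 / 16), κ ((1 / 4 : ℝ) ^ j • x) = (1 / 4 : ℝ) ^ j • (x - (1 / 2 : ℝ) • z0)

/-- LR-SHG: the shift of the factors with indices in `A` (`c k = 1` for the other `k`) -/
def S_SHG : Prop := ∀ (n : ℕ) (z0 : E n), nm z0 = 1 / 2 →
  ∀ P : (ℕ → (E n ≃ₜ E n)) → (E n ≃ₜ E n), IsPi n (1 / 2) (1 / 8) z0 P →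
  ∀ (A : Set ℕ), ∀ κ : E n ≃ₜ E n, (∀ k ∈ A, ∀ x ∈ D z0 (1 / 16), κ ((1 / 2 : ℝ) ^ k • x) =
    (1 / 2 : ℝ) ^ k • (x - (1 / 2 : ℝ) • z0)) →
  ∀ (h2 : (0 : ℝ) < 1 / 2) (c : ℕ → (E n ≃ₜ E n)), (∀ k, c k ∈ HamBar n) → (∀ k, k ∉ A → c k = 1) →
  ∀ b b' : ℕ → (E n ≃ₜ E n), (∀ k, b k = dil (1 / 2) h2 * c k * (dil (1 / 2) h2)⁻¹) →
    b' 0 = 1 → (∀ k, b' (k + 1) = c k) → κ * P b * κ⁻¹ = P b'

/-- LR-SHF: the shift -/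
def S_SHF : Prop := ∀ (n : ℕ) (z0 : E n), nm z0 = 1 / 2 →
  ∀ P : (ℕ → (E n ≃ₜ E n)) → (E n ≃ₜ E n), IsPi n (1 / 2) (1 / 8) z0 P →
  ∀ (h2 : (0 : ℝ) < 1 / 2) (c : ℕ → (E n ≃ₜ E n)), (∀ k, c k ∈ HamBar n) →
  ∀ b b' : ℕ → (E n ≃ₜ E n), (∀ k, b k = dil (1 / 2) h2 * c k * (dil (1 / 2) h2)⁻¹) →
    b' 0 = 1 → (∀ k, b' (k + 1) = c k) → ∃ w ∈ Cm n 1 2, P b = w * P b'

/-! ## The main parts -/

/-- LR-LER: bounded fragmentation implies bounded commutator length in small balls -/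
def S_LER : Prop := ∀ n : ℕ, 0 < n → ∀ (ρ : ℝ) (m : ℕ), 0 < ρ → ρ ≤ 1 →
  (∀ g ∈ Bl n ρ, g ∈ Wc n 1 (ρ / 2) m) → ∀ g ∈ Bl n (ρ / 8), g ∈ Cm n 1 (m + 2)

/-- LR-LER2: the same in the ball of radius `1 / 100`, and all smaller balls are in a subgroup containing
the commutators -/
def S_LER2 : Prop := ∀ n : ℕ, 0 < n → ∀ (ρ : ℝ) (m : ℕ), 0 < ρ → ρ ≤ 1 →
  (∀ g ∈ Bl n ρ, g ∈ Wc n 1 (ρ / 2) m) →
  (∀ g ∈ Bl n (ρ / 800), g ∈ Cm n (1 / 100) (m + 2)) ∧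
  (∀ t : ℝ, 0 < t → t ≤ 1 → ∀ g ∈ Bl n (t * ρ), g ∈ Wc n 1 (t * ρ / 2) m) ∧
  ∀ S : Subgroup (E n ≃ₜ E n), (∀ h ∈ HamBar n, ∀ x ∈ S, h * x * h⁻¹ ∈ S) →
    (∀ f ∈ Bl n (1 / 100), ∀ g ∈ Bl n (1 / 100), ⁅f, g⁆ ∈ S) → ∀ g ∈ Bl n ρ, g ∈ S

/-- LR-REC: a recursion -/
def S_REC : Prop := ∀ (α : Type) (d : α) (R : ℕ → (ℕ → α) → α → Prop), (∀ k f, ∃ a, R k f a) →
  ∃ b : ℕ → α, ∀ k, R k (fun i => if i < k then b i else d) (b k)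

/-- the normal closure, with respect to `HamBar n`, of the set of the `Z j` -/
def ncl {n : ℕ} (Z : ℕ → (E n ≃ₜ E n)) : Subgroup (E n ≃ₜ E n) :=
  Subgroup.closure {x | ∃ h ∈ HamBar n, ∃ j, x = h * Z j * h⁻¹}

/-- LR-NCL: elements of the normal closure -/
def S_NCL : Prop := ∀ (n : ℕ) (Z : ℕ → (E n ≃ₜ E n)), ∀ g ∈ ncl Z, ∃ N : ℕ, ∀ (r : ℝ), 0 < r →
  ∀ H : ℕ, (∀ j ≤ N, Z j ∈ Wc n 1 r H) → g ∈ Wc n 1 r (N * H)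

/-- LR-HUMP: if the elements of a ball are in the normal closure of a countable set of elements which can be
fragmented, then there is a bounded fragmentation -/
def S_HUMP : Prop := ∀ n : ℕ, 0 < n → ∀ ρ : ℝ, 0 < ρ → ρ ≤ 1 → ∀ Z : ℕ → (E n ≃ₜ E n),
  (∀ (j : ℕ) (r : ℝ), 0 < r → ∃ m : ℕ, Z j ∈ Wc n 1 r m) → (∀ g ∈ Bl n ρ, g ∈ ncl Z) →
  ∃ ρ' : ℝ, 0 < ρ' ∧ ρ' < 1 ∧ Frg n ρ'

end Pool.Agent.NH49.LR
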